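import Pool.Agent.Helper44.LT.N0

/-!
PROJECT LT, PIECE N4: values of real and rational polynomials at the powers of `ζ = exp(2πi/q)`.

PROOF. `zt_prim`: `Complex.isPrimitiveRoot_exp`. `er_conj`: `conj (ζ ^ u) = ζ ^ (q - u)` (`ζ ^ u * ζ ^ (q - u) = 1`, norm 1;
or `Complex.exp_conj`), the coefficients of `P` are real (`Polynomial.eval₂` and `map_sum`, or `aeval_conj`).
`ratl`: `ζ ^ u` is a primitive `q`-th root (`IsPrimitiveRoot.pow_of_coprime`), its minimal polynomial is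
`cyclotomic q ℚ` (`Polynomial.cyclotomic_eq_minpoly_rat`), so `cyclotomic q ℚ ∣ P`, and `cyclotomic q ℚ` vanishes at
`ζ ^ v` (`ev_cyc`). `ker`: by `CMt` and `er_conj`, `P(ζ ^ u) = 0` for all `1 ≤ u < q`; over `ℂ`,
`cyclotomic q ℂ = ∏ (X - μ)` over the primitive roots, `X - ζ ^ u ∣ P.map`, pairwise coprime (`Finset.prod_dvd_of_coprime`);
`Polynomial.map_dvd_map'` (or: `cyclotomic q ℂ` has simple roots, `Polynomial.Splits`, `Multiset.le`). Other way:
`P %ₘ cyclotomic q ℝ` has degree `< q - 1` and `q - 1` distinct roots `ζ ^ u`, so it is `0`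
(`Polynomial.eq_zero_of_natDegree_lt_card_of_eval_eq_zero'`).
-/

set_option autoImplicit false

namespace Pool.Agent.Helper44.LT

open Pool.Agent.Helper34.LT Polynomial

theorem zt_prim (q : ℕ) (hq : q ≠ 0) : IsPrimitiveRoot (zt q) q := by
  exact Complex.isPrimitiveRoot_exp q hq

theorem zt_inj (q : ℕ) (hq : 3 ≤ q) (u v : ℕ) (hu : u < q) (hv : v < q)
    (h : zt q ^ u = zt q ^ v) : u = v := by
  exact (zt_prim q (by omega)).pow_inj hu hv h

theorem zt_mod (q : ℕ) (hq : q ≠ 0) (u : ℕ) : zt q ^ (u % q) = zt q ^ u := by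
  conv_rhs => rw [← Nat.mod_add_div u q, pow_add, pow_mul, (zt_prim q hq).pow_eq_one, one_pow,
    mul_one]

theorem er_conj (q : ℕ) (hq : q ≠ 0) (u : ℕ) (hu : u ≤ q) (P : ℝ[X]) :
    er q (q - u) P = (starRingEnd ℂ) (er q u P) := by
  have h1 : (starRingEnd ℂ) (zt q ^ u) = zt q ^ (q - u) := by
    have hz : (starRingEnd ℂ) (zt q) * zt q = 1 := by
      rw [mul_comm, Complex.mul_conj, Complex.normSq_eq_norm_sq,
        (zt_prim q hq).norm'_eq_one hq]
      simp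
    have h2 : (starRingEnd ℂ) (zt q ^ u) * zt q ^ u = 1 := by
      rw [map_pow, ← mul_pow, hz, one_pow]
    have h3 : zt q ^ (q - u) * zt q ^ u = 1 := by
      rw [← pow_add, Nat.sub_add_cancel hu, (zt_prim q hq).pow_eq_one]
    have h4 : zt q ^ u ≠ 0 := by
      intro h0
      rw [h0, mul_zero] at h2
      exact zero_ne_one h2
    exact mul_right_cancel₀ h4 (h2.trans h3.symm)
  rw [er, er, ← h1, aeval_conj]

private theorem n4_cyc (q : ℕ) (hq : q ≠ 0) (u : ℕ) (h1 : u.Coprime q) :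
    eu q u (cyclotomic q ℚ) = 0 := by
  have h := (zt_prim q hq).pow_of_coprime u h1
  rw [eu, aeval_def, eval₂_eq_eval_map, map_cyclotomic]
  exact h.isRoot_cyclotomic (Nat.pos_of_ne_zero hq)

private theorem n4_ratl (q : ℕ) (hq : q ≠ 0) (P : ℚ[X]) (u v : ℕ) (hu : u.Coprime q)
    (hv : v.Coprime q) (h : eu q u P = 0) : eu q v P = 0 := by
  have h1 := (zt_prim q hq).pow_of_coprime u hu
  have h2 : cyclotomic q ℚ ∣ P := by
    rw [cyclotomic_eq_minpoly_rat h1 (Nat.pos_of_ne_zero hq)]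
    exact minpoly.dvd ℚ _ h
  obtain ⟨R, rfl⟩ := h2
  rw [eu_mul, n4_cyc q hq v hv, zero_mul]

private theorem n4_ker (q : ℕ) (hq : q ≠ 0) (P : ℝ[X])
    (h : ∀ u, u < q → u.Coprime q → er q u P = 0) : cyclotomic q ℝ ∣ P := by
  rw [← map_dvd_map' (algebraMap ℝ ℂ), map_cyclotomic,
    cyclotomic_eq_prod_X_sub_primitiveRoots (zt_prim q hq)]
  refine Finset.prod_dvd_of_coprime ?_ ?_
  · intro a _ b _ hab
    exact isCoprime_X_sub_C_of_isUnit_sub (sub_ne_zero.mpr hab).isUnit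
  · intro μ hμ
    rw [dvd_iff_isRoot, IsRoot.def]
    have h1 := isPrimitiveRoot_of_mem_primitiveRoots hμ
    have : NeZero q := ⟨hq⟩
    obtain ⟨u, hu, hc, hμu⟩ := ((zt_prim q hq).isPrimitiveRoot_iff).mp h1

    have h2 := h u hu hc
    rw [er, hμu, aeval_def, eval₂_eq_eval_map] at h2
    exact h2

theorem ev_cyc (q : ℕ) (hq : 3 ≤ q) (u : ℕ) (hu : Un q u) : eu q u (cyclotomic q ℚ) = 0 := by
  exact n4_cyc q (by omega) u hu.2.2

theorem ratl (q : ℕ) (hq : 3 ≤ q) (P : ℚ[X]) (u v : ℕ) (hu : Un q u) (hv : Un q v)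
    (h : eu q u P = 0) : eu q v P = 0 := by
  exact n4_ratl q (by omega) P u v hu.2.2 hv.2.2 h

theorem ker (q : ℕ) (hq : 3 ≤ q) (s : Finset ℕ) (hs : CMt q s) (P : ℝ[X])
    (h : ∀ u ∈ s, er q u P = 0) : cyclotomic q ℝ ∣ P := by
  refine n4_ker q (by omega) P fun u hu hc => ?_
  have h1 : 1 ≤ u := by
    rcases Nat.eq_zero_or_pos u with h0 | h0
    · rw [h0, Nat.coprime_zero_left] at hc
      omega
    · exact h0
  by_cases hus : u ∈ s
  · exact h u hus
  · have h2 : q - u ∈ s := by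
      by_contra h3
      exact hus ((hs.sub u ⟨h1, hu, hc⟩).mpr h3)
    have h3 := er_conj q (by omega) (q - u) (Nat.sub_le _ _) P
    rw [Nat.sub_sub_self hu.le, h _ h2, map_zero] at h3
    exact h3

end Pool.Agent.Helper44.LT
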