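import Pool.Agent.Helper34.LT.Df

/-!
PROJECT LT, BLOCK N: definitions (types, primitivity, evaluation of real and rational polynomials at
the powers of `ζ`).
-/

set_option autoImplicit false

namespace Pool.Agent.Helper44.LT

open Pool.Agent.Helper34.LT Polynomial

noncomputable section

/-- `u` is a unit modulo `q` -/
def Un (q u : ℕ) : Prop := 1 ≤ u ∧ u < q ∧ Nat.Coprime u q

/-- `s` consists of units and contains exactly one of `u`, `q - u` for every unit `u` -/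
structure CMt (q : ℕ) (s : Finset ℕ) : Prop where
  rng : ∀ u ∈ s, Un q u
  sub : ∀ u, Un q u → (u ∈ s ↔ q - u ∉ s)

/-- only `1` stabilises `s` -/
def Prm (q : ℕ) (s : Finset ℕ) : Prop :=
  ∀ h, Un q h → (∀ u, Un q u → (u ∈ s ↔ (u * h) % q ∈ s)) → h = 1

/-- no multiple of `t` is `s` -/
def NCj (q : ℕ) (s t : Finset ℕ) : Prop :=
  ∀ h, Un q h → ¬ ∀ u, Un q u → (u ∈ t ↔ (u * h) % q ∈ s)

/-- the type of `y^q = x^a (1-x)^b` on the units -/
def PU (q a b : ℕ) : Finset ℕ :=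
  ((Finset.Icc 1 (q - 1)).filter fun u => q < (u * a) % q + (u * b) % q).filter
    fun u => Nat.Coprime u q

/-- `P(ζ^u)` for a real polynomial -/
def er (q u : ℕ) (P : ℝ[X]) : ℂ := aeval (zt q ^ u) P

/-- `P(ζ^u)` for a rational polynomial -/
def eu (q u : ℕ) (P : ℚ[X]) : ℂ := aeval (zt q ^ u) P

/-- `f` applied to every coefficient -/
def cf (f : ℝ →ₗ[ℚ] ℚ) (P : ℝ[X]) : ℚ[X] :=
  ∑ n ∈ P.support, monomial n (f (P.coeff n))

/-- the rational polynomial as a real one -/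
def up (P : ℚ[X]) : ℝ[X] := P.map (algebraMap ℚ ℝ)

theorem er_add (q u : ℕ) (P Q : ℝ[X]) : er q u (P + Q) = er q u P + er q u Q := map_add _ _ _
theorem er_sub (q u : ℕ) (P Q : ℝ[X]) : er q u (P - Q) = er q u P - er q u Q := map_sub _ _ _
theorem er_mul (q u : ℕ) (P Q : ℝ[X]) : er q u (P * Q) = er q u P * er q u Q := map_mul _ _ _
theorem er_C (q u : ℕ) (r : ℝ) : er q u (C r) = (r : ℂ) := aeval_C _ _
theorem er_zero (q u : ℕ) : er q u 0 = 0 := map_zero _
theorem er_sum (q u : ℕ) {ι : Type*} (s : Finset ι) (P : ι → ℝ[X]) :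
    er q u (∑ i ∈ s, P i) = ∑ i ∈ s, er q u (P i) := map_sum _ _ _

theorem eu_add (q u : ℕ) (P Q : ℚ[X]) : eu q u (P + Q) = eu q u P + eu q u Q := map_add _ _ _
theorem eu_sub (q u : ℕ) (P Q : ℚ[X]) : eu q u (P - Q) = eu q u P - eu q u Q := map_sub _ _ _
theorem eu_mul (q u : ℕ) (P Q : ℚ[X]) : eu q u (P * Q) = eu q u P * eu q u Q := map_mul _ _ _
theorem eu_C (q u : ℕ) (r : ℚ) : eu q u (C r) = (r : ℂ) := by
  rw [eu, aeval_C]
  simp
theorem eu_zero (q u : ℕ) : eu q u 0 = 0 := map_zero _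
theorem eu_one (q u : ℕ) : eu q u 1 = 1 := map_one _
theorem eu_sum (q u : ℕ) {ι : Type*} (s : Finset ι) (P : ι → ℚ[X]) :
    eu q u (∑ i ∈ s, P i) = ∑ i ∈ s, eu q u (P i) := map_sum _ _ _

theorem er_up (q u : ℕ) (P : ℚ[X]) : er q u (up P) = eu q u P := by
  rw [er, eu, up, aeval_map_algebraMap]

theorem up_add (P Q : ℚ[X]) : up (P + Q) = up P + up Q := Polynomial.map_add _
theorem up_mul (P Q : ℚ[X]) : up (P * Q) = up P * up Q := Polynomial.map_mul _

theorem Un.one (q : ℕ) (hq : 3 ≤ q) : Un q 1 := ⟨le_rfl, by omega, Nat.coprime_one_left q⟩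

theorem Un.sub {q u : ℕ} (h : Un q u) : Un q (q - u) := by
  obtain ⟨h1, h2, h3⟩ := h
  refine ⟨by omega, by omega, ?_⟩
  rw [Nat.coprime_self_sub_left h2.le]
  exact h3

theorem Un.mul_mod {q u v : ℕ} (hu : Un q u) (hv : Un q v) (hq : 3 ≤ q) :
    Un q ((u * v) % q) := by
  have h1 : Nat.Coprime ((u * v) % q) q := by
    rw [Nat.Coprime, ← Nat.gcd_rec, Nat.gcd_comm]
    exact Nat.Coprime.mul_left hu.2.2 hv.2.2
  refine ⟨?_, Nat.mod_lt _ (by omega), h1⟩
  by_contra hcon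
  have h0 : (u * v) % q = 0 := by omega
  rw [h0, Nat.coprime_zero_left] at h1
  omega

end

end Pool.Agent.Helper44.LT
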