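import Pool.Agent.Helper44.LT.N4

/-!
PROJECT LT, PIECE N8: rational polynomials whose values at the places of a type are in the upper half plane.

PROOF. `b_sign`: if `u ∉ s` then `q - u ∈ s` (`CMt.sub`), `b(ζ ^ (q - u)) = conj b(ζ ^ u)` (`er_conj` with `er_up`), so
`(eu q u b).im < 0`. `shift`: `P(X) = b(X ^ v) - b'(X ^ w)` (`Polynomial.expand` or `comp (X ^ v)`), `P(ζ) = 0`, so
`P(ζ ^ u) = 0` (`ratl`), i.e. `b(ζ ^ (u v)) = b'(ζ ^ (u w))`; `zt_mod`. `b_inj`: let a unit `h` with `(u h) % q = v`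
(`u` is invertible modulo `q`) and a unit `u'` with `(u u') % q = 1`; `shift` with `b' = b`, and multiplication by
`x u'`: for all units `x`: `b(ζ ^ x) = b(ζ ^ (x h))`. So `x ∈ s` iff `(x h) % q ∈ s` (`b_sign`), `h = 1` (`Prm`), `v = u`.
`b_ncj`: if `b₂(ζ) = b₁(ζ ^ h)` then `b₂(ζ ^ u) = b₁(ζ ^ (u h))` for all `u` (`shift`), so `u ∈ t` iff `(u h) % q ∈ s`.
-/

set_option autoImplicit false

namespace Pool.Agent.Helper44.LT

open Pool.Agent.Helper34.LT Polynomial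

theorem b_sign (q : ℕ) (hq : 3 ≤ q) (s : Finset ℕ) (hs : CMt q s) (b : ℚ[X])
    (hb : ∀ u ∈ s, 0 < (eu q u b).im) (u : ℕ) (hu : Un q u) :
    u ∈ s ↔ 0 < (eu q u b).im := by
  refine ⟨hb u, fun h => ?_⟩
  by_contra h1
  have h2 : q - u ∈ s := by
    by_contra h3
    exact h1 ((hs.sub u hu).2 h3)
  have h3 := hb _ h2
  have h4 := er_conj q (by omega) u hu.2.1.le (up b)
  rw [er_up, er_up] at h4
  rw [h4, Complex.conj_im] at h3
  linarith

theorem shift (q : ℕ) (hq : 3 ≤ q) (b b' : ℚ[X]) (v w : ℕ) (h : eu q v b = eu q w b')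
    (u : ℕ) (hu : Un q u) : eu q ((u * v) % q) b = eu q ((u * w) % q) b' := by
  have key : ∀ x : ℕ, eu q x (b.comp (X ^ v) - b'.comp (X ^ w)) =
      eu q (x * v) b - eu q (x * w) b' := by
    intro x
    unfold eu
    rw [map_sub, aeval_comp, aeval_comp, map_pow, map_pow, aeval_X, ← pow_mul, ← pow_mul]
  have h1 := key 1
  rw [one_mul, one_mul, h, sub_self] at h1
  have h2 := ratl q hq _ 1 u (Un.one q hq) hu h1
  rw [key] at h2
  unfold eu at h2 ⊢
  rw [zt_mod q (by omega), zt_mod q (by omega)]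
  exact sub_eq_zero.1 h2

private theorem n8_mod {q a c : ℕ} (h : (a : ZMod q) = (c : ZMod q)) (hc : c < q) :
    a % q = c := by
  have h1 := (ZMod.natCast_eq_natCast_iff' a c q).1 h
  rw [h1, Nat.mod_eq_of_lt hc]

private theorem n8_inv {q : ℕ} (hq : 3 ≤ q) {u : ℕ} (hu : Un q u) :
    ∃ u', Un q u' ∧ (u : ZMod q) * (u' : ZMod q) = 1 := by
  have : NeZero q := ⟨by omega⟩
  have : Fact (1 < q) := ⟨by omega⟩
  let x := ZMod.unitOfCoprime u hu.2.2
  have hx : ((x⁻¹ : (ZMod q)ˣ) : ZMod q).val.Coprime q := ZMod.val_coe_unit_coprime _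
  refine ⟨((x⁻¹ : (ZMod q)ˣ) : ZMod q).val, ⟨?_, ZMod.val_lt _, hx⟩, ?_⟩
  · by_contra hcon
    have h0 : ((x⁻¹ : (ZMod q)ˣ) : ZMod q).val = 0 := by omega
    rw [h0, Nat.coprime_zero_left] at hx
    omega
  · rw [ZMod.natCast_val, ZMod.cast_id, ← ZMod.coe_unitOfCoprime u hu.2.2]
    exact x.mul_inv

theorem b_inj (q : ℕ) (hq : 3 ≤ q) (s : Finset ℕ) (hs : CMt q s) (hp : Prm q s) (b : ℚ[X])
    (hb : ∀ u ∈ s, 0 < (eu q u b).im) (u v : ℕ) (hu : Un q u) (hv : Un q v)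
    (h : eu q u b = eu q v b) : u = v := by
  obtain ⟨u', hu1', hu'⟩ := n8_inv hq hu
  have hq0 : 0 < q := by omega
  have hh1 : Un q ((u' * v) % q) := hu1'.mul_mod hv hq
  have hh3 : (((u' * v) % q : ℕ) : ZMod q) = (u' : ZMod q) * (v : ZMod q) := by
    rw [ZMod.natCast_mod, Nat.cast_mul]
  have h1 := hp _ hh1 (fun x hx => by
    have e0 : Un q ((x * u') % q) := hx.mul_mod hu1' hq
    have e2 := shift q hq b b u v h _ e0
    have e3 : (x * u') % q * u % q = x := by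
      apply n8_mod _ hx.2.1
      rw [Nat.cast_mul, ZMod.natCast_mod, Nat.cast_mul]
      linear_combination (x : ZMod q) * hu'
    have e4 : (x * u') % q * v % q = (x * ((u' * v) % q)) % q := by
      apply n8_mod _ (Nat.mod_lt _ hq0)
      rw [Nat.cast_mul, ZMod.natCast_mod, Nat.cast_mul, ZMod.natCast_mod, Nat.cast_mul, hh3]
      ring
    rw [e3, e4] at e2
    rw [b_sign q hq s hs b hb x hx, b_sign q hq s hs b hb _ (hx.mul_mod hh1 hq), e2])
  rw [h1] at hh3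
  rw [Nat.cast_one] at hh3
  have h2 : (u : ZMod q) = (v : ZMod q) := by
    linear_combination (u : ZMod q) * hh3 + (v : ZMod q) * hu'
  have h3 := n8_mod h2 hv.2.1
  rw [Nat.mod_eq_of_lt hu.2.1] at h3
  exact h3

theorem b_ncj (q : ℕ) (hq : 3 ≤ q) (s t : Finset ℕ) (hs : CMt q s) (ht : CMt q t)
    (hn : NCj q s t) (b1 b2 : ℚ[X]) (hb1 : ∀ u ∈ s, 0 < (eu q u b1).im)
    (hb2 : ∀ u ∈ t, 0 < (eu q u b2).im) (h : ℕ) (hh : Un q h) : eu q 1 b2 ≠ eu q h b1 := by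
  intro h3
  refine hn h hh fun u hu => ?_
  have h4 := shift q hq b2 b1 1 h h3 u hu
  rw [mul_one, Nat.mod_eq_of_lt hu.2.1] at h4
  rw [b_sign q hq t ht b2 hb2 u hu, b_sign q hq s hs b1 hb1 _ (hu.mul_mod hh hq), h4]

end Pool.Agent.Helper44.LT
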