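import Pool.Agent.Helper44.LT.N4

/-!
PROJECT LT, PIECE N9: field theory of `ℚ(ζ)`.

Notation: `β = b(ζ)`, `β u = b(ζ ^ u)`, `1 ≤ u < q`, pairwise distinct (`hb`). A polynomial `m` over `ℚ` with
`m(β) = 0` has `m(β u) = 0` for all `u` (`ratl` for `m.comp b`), so `m = 0` or `q - 1 ≤ m.natDegree` (`Polynomial.card_roots'`
over `ℂ`). PROOF of `gen`. `ℚ⟮β⟯ ≤ ℚ⟮ζ⟯` in `ℂ`, `finrank ℚ ℚ⟮ζ⟯ = natDegree (cyclotomic q ℚ) = q - 1` (`zt_prim`,
`IntermediateField.adjoin.finrank`, `cyclotomic_eq_minpoly_rat`), `finrank ℚ ℚ⟮β⟯ = natDegree (minpoly ℚ β) ≥ q - 1`, so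
they are equal (`IntermediateField.eq_of_le_of_finrank_le`); `R(ζ) / P(ζ) ∈ ℚ⟮β⟯`, so it is `G(β)`
(`IntermediateField.adjoin_simple_toSubalgebra_of_integral`, `Algebra.adjoin_singleton_eq_range_aeval`);
`(G.comp b) * P - R` vanishes at `ζ`, so at all `ζ ^ u` (`ratl`). Other way: `1, β, .., β ^ (q - 2)` are `q - 1` independent
elements of the space of the `P(ζ)`, of dimension `q - 1`.
PROOF of `sep`. `m₁ = minpoly ℚ (b₁(ζ))`, `m₂ = minpoly ℚ (b₂(ζ))`. `m₂.natDegree ≤ q - 1` (`b₂(ζ) ∈ ℚ⟮ζ⟯`,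
`minpoly.natDegree_le` or `finrank`). If `m₂(b₁(ζ)) = 0` then the `b₁(ζ ^ u)` are `q - 1` distinct roots of `m₂` in `ℂ`, so they are
all its roots, and `b₂(ζ)` is one of them: contradiction to `hn`. So `m₂(b₁(ζ)) ≠ 0`, `m₁` (irreducible) does not divide
`m₂`, `A m₁ + B m₂ = 1` (`Irreducible.coprime_iff_not_dvd`), `G = B m₂`; other `u` by `ratl` for
`G.comp b₁ - 1` and `G.comp b₂`.
-/

set_option autoImplicit false

namespace Pool.Agent.Helper44.LT

open Pool.Agent.Helper34.LT Polynomial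

/-- a rational polynomial that vanishes at one primitive root vanishes at all -/
private theorem n9_ratl (q : ℕ) (hq : q ≠ 0) (P : ℚ[X]) (u v : ℕ) (hu : u.Coprime q)
    (hv : v.Coprime q) (h : eu q u P = 0) : eu q v P = 0 := by
  have h1 := (zt_prim q hq).pow_of_coprime u hu
  have h2 : cyclotomic q ℚ ∣ P := by
    rw [cyclotomic_eq_minpoly_rat h1 (Nat.pos_of_ne_zero hq)]
    exact minpoly.dvd ℚ _ h
  obtain ⟨R, rfl⟩ := h2
  have h3 := (zt_prim q hq).pow_of_coprime v hv
  have h4 : eu q v (cyclotomic q ℚ) = 0 := by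
    rw [eu, aeval_def, eval₂_eq_eval_map, map_cyclotomic]
    exact h3.isRoot_cyclotomic (Nat.pos_of_ne_zero hq)
  rw [eu_mul, h4, zero_mul]

private theorem n9_comp (q u : ℕ) (G b : ℚ[X]) : eu q u (G.comp b) = aeval (eu q u b) G := by
  unfold eu
  rw [aeval_comp]

/-- a nonzero rational polynomial with the root `b(ζ)` has degree at least `φ(q)` -/
private theorem n9_deg (q : ℕ) (hq : q ≠ 0) (b : ℚ[X])
    (hb : ∀ u v, u < q → u.Coprime q → v < q → v.Coprime q → eu q u b = eu q v b → u = v)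
    (m : ℚ[X]) (hm : m ≠ 0) (h : aeval (eu q 1 b) m = 0) : q.totient ≤ m.natDegree := by
  classical
  have h1 : ∀ u, u.Coprime q → aeval (eu q u b) m = 0 := by
    intro u hu
    rw [← n9_comp]
    exact n9_ratl q hq _ 1 u (Nat.coprime_one_left q) hu (by rw [n9_comp]; exact h)
  have hm' : m.map (algebraMap ℚ ℂ) ≠ 0 := by
    rwa [Ne, Polynomial.map_eq_zero]
  set Z : Finset ℂ := ((Finset.range q).filter fun u => q.Coprime u).image fun u => eu q u b
    with hZ
  have hc : Z.card = q.totient := by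
    rw [hZ, Finset.card_image_of_injOn]
    · rfl
    · intro u hu v hv huv
      rw [Finset.mem_coe, Finset.mem_filter, Finset.mem_range] at hu hv
      exact hb u v hu.1 hu.2.symm hv.1 hv.2.symm huv
  rw [← hc, ← natDegree_map (algebraMap ℚ ℂ)]
  apply card_le_degree_of_subset_roots
  intro x hx
  rw [Finset.mem_val, hZ, Finset.mem_image] at hx
  obtain ⟨u, hu, rfl⟩ := hx
  rw [mem_roots hm', IsRoot.def, ← eval₂_eq_eval_map, ← aeval_def]
  exact h1 u (Finset.mem_filter.1 hu).2.symm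

private theorem n9_gen (q : ℕ) (hq : q ≠ 0) (b : ℚ[X])
    (hb : ∀ u v, u < q → u.Coprime q → v < q → v.Coprime q → eu q u b = eu q v b → u = v)
    (P R : ℚ[X]) (hP : eu q 1 P ≠ 0) :
    ∃ G : ℚ[X], ∀ u, u.Coprime q → eu q u (G.comp b * P) = eu q u R := by
  have hprim := zt_prim q hq
  have hpos := Nat.pos_of_ne_zero hq
  have hint : IsIntegral ℚ (zt q) := (hprim.isIntegral hpos).tower_top
  have e1 : ∀ P : ℚ[X], eu q 1 P = aeval (zt q) P := fun P => by rw [eu, pow_one]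
  set β : ℂ := eu q 1 b with hβ
  have hmem : ∀ P : ℚ[X], eu q 1 P ∈ IntermediateField.adjoin ℚ {zt q} := by
    intro P
    rw [e1]
    exact IntermediateField.algebra_adjoin_le_adjoin ℚ {zt q}
      (aeval_mem_adjoin_singleton ℚ (zt q))
  have hle : IntermediateField.adjoin ℚ {β} ≤ IntermediateField.adjoin ℚ {zt q} := by
    rw [IntermediateField.adjoin_simple_le_iff]
    exact hmem b
  have hfd : FiniteDimensional ℚ (IntermediateField.adjoin ℚ {zt q}) :=
    IntermediateField.adjoin.finiteDimensional hint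
  have hβint : IsIntegral ℚ β := by
    have h1 : Algebra.IsIntegral ℚ (IntermediateField.adjoin ℚ {zt q}) :=
      Algebra.IsIntegral.of_finite ℚ _
    have h2 := h1.isIntegral (⟨β, hmem b⟩ : IntermediateField.adjoin ℚ {zt q})
    exact h2.map (IntermediateField.val _)
  have hf1 : Module.finrank ℚ (IntermediateField.adjoin ℚ {zt q}) = q.totient := by
    rw [IntermediateField.adjoin.finrank hint, ← cyclotomic_eq_minpoly_rat hprim hpos,
      natDegree_cyclotomic]
  have hf2 : q.totient ≤ Module.finrank ℚ (IntermediateField.adjoin ℚ {β}) := by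
    rw [IntermediateField.adjoin.finrank hβint]
    exact n9_deg q hq b hb _ (minpoly.ne_zero hβint) (minpoly.aeval ℚ β)
  have heq : IntermediateField.adjoin ℚ {β} = IntermediateField.adjoin ℚ {zt q} :=
    IntermediateField.eq_of_le_of_finrank_le hle (by rw [hf1]; exact hf2)
  have h3 : eu q 1 R / eu q 1 P ∈ IntermediateField.adjoin ℚ {β} := by
    rw [heq]
    exact div_mem (hmem R) (hmem P)
  rw [← IntermediateField.mem_toSubalgebra,
    IntermediateField.adjoin_simple_toSubalgebra_of_isAlgebraic hβint.isAlgebraic,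
    Algebra.adjoin_singleton_eq_range_aeval] at h3
  obtain ⟨G, hG⟩ := h3
  refine ⟨G, fun u hu => ?_⟩
  have h4 : eu q 1 (G.comp b * P - R) = 0 := by
    have h5 : aeval β G = eu q 1 R / eu q 1 P := hG
    rw [eu_sub, eu_mul, n9_comp, ← hβ, h5, div_mul_cancel₀ _ hP, sub_self]
  have h5 := n9_ratl q hq _ 1 u (Nat.coprime_one_left q) hu h4
  rw [eu_sub, sub_eq_zero] at h5
  exact h5

theorem gen (q : ℕ) (hq : 3 ≤ q) (b : ℚ[X])
    (hb : ∀ u v, Un q u → Un q v → eu q u b = eu q v b → u = v)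
    (P R : ℚ[X]) (hP : eu q 1 P ≠ 0) :
    ∃ G : ℚ[X], ∀ u, Un q u → eu q u (G.comp b * P) = eu q u R := by
  have hpos : ∀ u, u.Coprime q → 1 ≤ u := by
    intro u hu
    rcases Nat.eq_zero_or_pos u with h0 | h0
    · rw [h0, Nat.coprime_zero_left] at hu
      omega
    · exact h0
  obtain ⟨G, hG⟩ := n9_gen q (by omega) b
    (fun u v h1 h2 h3 h4 h => hb u v ⟨hpos u h2, h1, h2⟩ ⟨hpos v h4, h3, h4⟩ h) P R hP
  exact ⟨G, fun u hu => hG u hu.2.2⟩

private theorem N9s_prim {q : ℕ} (hq : 3 ≤ q) : IsPrimitiveRoot (zt q) q :=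
  Complex.isPrimitiveRoot_exp q (by omega)

private theorem N9s_ratl {q : ℕ} (hq : 3 ≤ q) {u : ℕ} (hu : Un q u) {R : ℚ[X]}
    (hR : eu q 1 R = 0) : eu q u R = 0 := by
  have h0 : 0 < q := by omega
  have h1 : IsPrimitiveRoot (zt q ^ u) q := (N9s_prim hq).pow_of_coprime u hu.2.2
  have h2 : minpoly ℚ (zt q) ∣ R := by
    apply minpoly.dvd
    have h3 : aeval (zt q ^ 1) R = 0 := hR
    rwa [pow_one] at h3
  obtain ⟨S, rfl⟩ := h2
  unfold eu
  rw [map_mul, ← cyclotomic_eq_minpoly_rat (N9s_prim hq) h0,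
    cyclotomic_eq_minpoly_rat h1 h0, minpoly.aeval, zero_mul]

private theorem N9s_deg {q : ℕ} (hq : 3 ≤ q) (b : ℚ[X]) :
    IsIntegral ℚ (eu q 1 b) ∧ (minpoly ℚ (eu q 1 b)).natDegree ≤ q.totient := by
  have h0 : 0 < q := by omega
  have hz : IsIntegral ℚ (zt q) := ((N9s_prim hq).isIntegral h0).tower_top
  have : FiniteDimensional ℚ (IntermediateField.adjoin ℚ {zt q}) :=
    IntermediateField.adjoin.finiteDimensional hz
  have hfr : Module.finrank ℚ (IntermediateField.adjoin ℚ {zt q}) = q.totient := by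
    rw [IntermediateField.adjoin.finrank hz, ← cyclotomic_eq_minpoly_rat (N9s_prim hq) h0,
      natDegree_cyclotomic]
  have hx : eu q 1 b = algebraMap (IntermediateField.adjoin ℚ {zt q}) ℂ
      (aeval (IntermediateField.AdjoinSimple.gen ℚ (zt q)) b) := by
    unfold eu
    rw [pow_one, ← aeval_algebraMap_apply, IntermediateField.AdjoinSimple.algebraMap_gen]
  constructor
  · rw [hx]
    exact (IsIntegral.of_finite ℚ _).algebraMap
  · rw [hx, minpoly.algebraMap_eq (FaithfulSMul.algebraMap_injective _ _), ← hfr]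
    exact minpoly.natDegree_le _

theorem sep (q : ℕ) (hq : 3 ≤ q) (b1 b2 : ℚ[X])
    (hb : ∀ u v, Un q u → Un q v → eu q u b1 = eu q v b1 → u = v)
    (hn : ∀ h, Un q h → eu q 1 b2 ≠ eu q h b1) :
    ∃ G : ℚ[X], ∀ u, Un q u → eu q u (G.comp b1) = 1 ∧ eu q u (G.comp b2) = 0 := by
  classical
  have hev : ∀ (u : ℕ) (m b : ℚ[X]), eu q u (m.comp b) = aeval (eu q u b) m := by
    intro u m b
    unfold eu
    rw [aeval_comp]
  obtain ⟨hi1, -⟩ := N9s_deg hq b1
  obtain ⟨hi2, hd2⟩ := N9s_deg hq b2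
  have hm2 : minpoly ℚ (eu q 1 b2) ≠ 0 := minpoly.ne_zero hi2
  have hne : aeval (eu q 1 b1) (minpoly ℚ (eu q 1 b2)) ≠ 0 := by
    intro h
    have h1 : ∀ u, Un q u → aeval (eu q u b1) (minpoly ℚ (eu q 1 b2)) = 0 := by
      intro u hu
      rw [← hev]
      exact N9s_ratl hq hu (by rw [hev]; exact h)
    have hU : ∀ u ∈ (Finset.range q).filter (fun u => q.Coprime u), Un q u := by
      intro u hu
      rw [Finset.mem_filter, Finset.mem_range] at hu
      refine ⟨?_, hu.1, hu.2.symm⟩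
      by_contra h0
      have h2 : u = 0 := by omega
      rw [h2, Nat.coprime_zero_right] at hu
      omega
    have hsub : ((Finset.range q).filter (fun u => q.Coprime u)).image (fun u => eu q u b1) ⊆
        ((minpoly ℚ (eu q 1 b2)).aroots ℂ).toFinset := by
      intro x hx
      obtain ⟨u, hu, rfl⟩ := Finset.mem_image.1 hx
      rw [Multiset.mem_toFinset, mem_aroots]
      exact ⟨hm2, h1 u (hU u hu)⟩
    have hcard : ((minpoly ℚ (eu q 1 b2)).aroots ℂ).toFinset.card ≤
        (((Finset.range q).filter (fun u => q.Coprime u)).image (fun u => eu q u b1)).card := by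
      rw [Finset.card_image_of_injOn (fun u hu v hv h => hb u v (hU u hu) (hU v hv) h)]
      refine (Multiset.toFinset_card_le _).trans (((minpoly ℚ (eu q 1 b2)).card_roots_map_le_natDegree).trans hd2)
    have heq := Finset.eq_of_subset_of_card_le hsub hcard
    have h3 : eu q 1 b2 ∈ ((minpoly ℚ (eu q 1 b2)).aroots ℂ).toFinset := by
      rw [Multiset.mem_toFinset, mem_aroots]
      exact ⟨hm2, minpoly.aeval _ _⟩
    rw [← heq] at h3
    obtain ⟨u, hu, hu2⟩ := Finset.mem_image.1 h3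
    exact hn u (hU u hu) hu2.symm
  have hirr := minpoly.irreducible hi1
  have hcop : IsCoprime (minpoly ℚ (eu q 1 b1)) (minpoly ℚ (eu q 1 b2)) := by
    rw [Irreducible.coprime_iff_not_dvd hirr]
    rintro ⟨S, hS⟩
    apply hne
    rw [hS, map_mul, minpoly.aeval, zero_mul]
  obtain ⟨A, B, hAB⟩ := hcop
  refine ⟨B * minpoly ℚ (eu q 1 b2), fun u hu => ⟨?_, ?_⟩⟩
  · have h1 : eu q u ((B * minpoly ℚ (eu q 1 b2)).comp b1 - 1) = 0 := by
      refine N9s_ratl hq hu ?_
      have h2 : eu q 1 ((B * minpoly ℚ (eu q 1 b2)).comp b1 - 1) =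
          aeval (eu q 1 b1) (B * minpoly ℚ (eu q 1 b2) - 1) := by
        rw [← hev, sub_comp, one_comp]
      rw [h2, ← hAB]
      have h3 : B * minpoly ℚ (eu q 1 b2) - (A * minpoly ℚ (eu q 1 b1) + B * minpoly ℚ (eu q 1 b2)) =
          - (A * minpoly ℚ (eu q 1 b1)) := by ring
      rw [h3, map_neg, map_mul, minpoly.aeval, mul_zero, neg_zero]
    unfold eu at h1 ⊢
    rw [map_sub, map_one, sub_eq_zero] at h1
    exact h1
  · refine N9s_ratl hq hu ?_
    rw [hev, map_mul, minpoly.aeval, mul_zero]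

end Pool.Agent.Helper44.LT
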