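import Pool.Agent.Helper44.LT.N0

/-!
PROJECT LT, PIECE N6: the coefficientwise map `cf f : ℝ[X] → ℚ[X]` of a `ℚ`-linear `f : ℝ → ℚ`.

PROOF. `cf_coeff`: `Polynomial.finset_sum_coeff`, `coeff_monomial`, `f 0 = 0`. `cf_add`, `cf_smul`: coefficients.
`cf_mul`: `Polynomial.coeff_mul`, `f (a * (r : ℝ)) = f a * r` (`map_smul`). `expand`: let `β` be a `ℚ`-basis of `ℝ`
(`Module.Basis.ofVectorSpace ℚ ℝ`), `f l = β.coord l`, `F` = the union of the supports of `β.repr (J.coeff n)`,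
`β.repr (J'.coeff n)`; index by `Fin m ≃ F`; compare coefficients: `∑ l ∈ F, β.repr c l • β l = c`
(`Finsupp.sum_of_support_subset`, `Module.Basis.linearCombination_repr`).
-/

set_option autoImplicit false

namespace Pool.Agent.Helper44.LT

open Pool.Agent.Helper34.LT Polynomial

theorem cf_coeff (f : ℝ →ₗ[ℚ] ℚ) (P : ℝ[X]) (n : ℕ) : (cf f P).coeff n = f (P.coeff n) := by
  rw [cf, finset_sum_coeff]
  simp only [coeff_monomial]
  rw [Finset.sum_ite_eq']
  split_ifs with h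
  · rfl
  · rw [notMem_support_iff] at h
    rw [h, map_zero]

theorem cf_add (f : ℝ →ₗ[ℚ] ℚ) (P Q : ℝ[X]) : cf f (P + Q) = cf f P + cf f Q := by
  ext n
  rw [coeff_add, cf_coeff, cf_coeff, cf_coeff, coeff_add, map_add]

theorem cf_zero (f : ℝ →ₗ[ℚ] ℚ) : cf f 0 = 0 := by
  ext n
  rw [cf_coeff, coeff_zero, coeff_zero, map_zero]

/-- `f(r x)` as a function of `x` -/
noncomputable def shf (f : ℝ →ₗ[ℚ] ℚ) (r : ℝ) : ℝ →ₗ[ℚ] ℚ :=
  f.comp (LinearMap.mulLeft ℚ r)

theorem cf_smul (f : ℝ →ₗ[ℚ] ℚ) (r : ℝ) (P : ℝ[X]) : cf f (C r * P) = cf (shf f r) P := by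
  ext n
  rw [cf_coeff, cf_coeff, coeff_C_mul]
  rfl

theorem cf_mul (f : ℝ →ₗ[ℚ] ℚ) (P : ℝ[X]) (Q : ℚ[X]) : cf f (P * up Q) = cf f P * Q := by
  ext n
  rw [cf_coeff, coeff_mul, coeff_mul, map_sum]
  refine Finset.sum_congr rfl fun x _ => ?_
  rw [up, coeff_map, cf_coeff]
  have h : P.coeff x.1 * algebraMap ℚ ℝ (Q.coeff x.2) = (Q.coeff x.2) • P.coeff x.1 := by
    rw [Algebra.smul_def, mul_comm]
  rw [h, map_smul, smul_eq_mul, mul_comm]

theorem cf_up (f : ℝ →ₗ[ℚ] ℚ) (Q : ℚ[X]) : cf f (up Q) = C (f 1) * Q := by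
  have h : cf f 1 = C (f 1) := by
    ext n
    rw [cf_coeff, coeff_one, coeff_C]
    split_ifs
    · rfl
    · exact map_zero f
  rw [← h, ← cf_mul, one_mul]

theorem expand (J J' : ℝ[X]) : ∃ (m : ℕ) (f : Fin m → ℝ →ₗ[ℚ] ℚ) (β : Fin m → ℝ),
    J = ∑ l, C (β l) * up (cf (f l) J) ∧ J' = ∑ l, C (β l) * up (cf (f l) J') := by
  classical
  let b := Module.Basis.ofVectorSpace ℚ ℝ
  let F := (J.support.biUnion fun n => (b.repr (J.coeff n)).support) ∪
    (J'.support.biUnion fun n => (b.repr (J'.coeff n)).support)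
  let e := F.equivFin
  have key : ∀ K : ℝ[X], (∀ n, (b.repr (K.coeff n)).support ⊆ F) →
      K = ∑ l, C (b (e.symm l).1) * up (cf (b.coord (e.symm l).1) K) := by
    intro K hK
    ext n
    rw [finset_sum_coeff]
    simp only [coeff_C_mul, up, coeff_map, cf_coeff, Module.Basis.coord_apply]
    rw [e.symm.sum_comp (fun l : F => b l.1 * algebraMap ℚ ℝ (b.repr (K.coeff n) l.1)),
      Finset.sum_coe_sort F (fun l => b l * algebraMap ℚ ℝ (b.repr (K.coeff n) l))]
    have h1 := b.linearCombination_repr (K.coeff n)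
    rw [Finsupp.linearCombination_apply, Finsupp.sum_of_support_subset _ (hK n)
      (fun i (a : ℚ) => a • b i) (fun i _ => zero_smul _ _)] at h1
    rw [← h1]
    refine Finset.sum_congr rfl fun l _ => ?_
    rw [h1, Algebra.smul_def, mul_comm]
  have hF : ∀ K : ℝ[X], (K.support.biUnion fun n => (b.repr (K.coeff n)).support) ⊆ F →
      ∀ n, (b.repr (K.coeff n)).support ⊆ F := by
    intro K hK n
    by_cases hn : n ∈ K.support
    · exact (Finset.subset_biUnion_of_mem (fun n => (b.repr (K.coeff n)).support) hn).trans hK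
    · rw [notMem_support_iff] at hn
      rw [hn, map_zero, Finsupp.support_zero]
      exact Finset.empty_subset _
  exact ⟨F.card, fun l => b.coord (e.symm l).1, fun l => b (e.symm l).1,
    key J (hF J Finset.subset_union_left), key J' (hF J' Finset.subset_union_right)⟩

end Pool.Agent.Helper44.LT
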