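import Pool.Agent.Helper44.LT.N5
import Pool.Agent.Helper44.LT.N6

/-!
PROJECT LT, PIECE N7: the complex structure and rational endomorphisms of `H`.

`H` is a complex subspace of `ℂ^s × ℂ^t` which is the real span of the points `ptQ P Q` (`P, Q ∈ ℚ[X]`) in `H` (`RatH`).
PROOF of `claimA`. Let `T` be the set of the `x` such that there are `P Q : ℝ[X]` with `ptR P Q = x` and
`ptQ (cf f P) (cf f Q) ∈ H` for ALL `f`. `T` is a real subspace: sums by `cf_add`; real multiples `r • x`: `C r * P`, `C r * Q`,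
`cf f (C r * P) = cf (shf f r) P` (`cf_smul`). `T` contains the points `ptQ P Q` in `H`: take `up P`, `up Q`,
`cf f (up P) = C (f 1) * P`, so `ptQ (..) (..) = (f 1 : ℂ) • ptQ P Q` (`eu_mul`, `eu_C`). So `H ⊆ T` by `hr`
(`Submodule.span_induction` or `Submodule.span_le`). If `ptR P Q ∈ H`, take `P' Q'` for `x = ptR P Q ∈ T`; `ρ ≠ 0`:
`er q u (P - P') = 0` on `s`, so `P = P' + cyclotomic q ℝ * A = P' + A * up (cyclotomic q ℚ)` (`ker`,
`Polynomial.map_cyclotomic`), `cf f P = cf f P' + cf f A * cyclotomic q ℚ` (`cf_mul`), which has the same values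
(`ev_cyc`); same for `Q`. So `ptQ (cf f P) (cf f Q) = ptQ (cf f P') (cf f Q') ∈ H`.
PROOF of `exists_b`. `J, J' : ℝ[X]` with `er q u J = I` on `s`, `er q u J' = I` on `t` (`surj`). If `ptQ P Q ∈ H` then
`ptR (J * up P) (J' * up Q) = I • ptQ P Q ∈ H`, so by `claimA` and `cf_mul` `ptQ (cf f J * P) (cf f J' * Q) ∈ H` for all `f`.
`expand`: `J = ∑ C (β l) * up (cf (f l) J)` etc. The set of the `r : Fin m → ℝ` with
`0 < (∑ l, r l * eu q u (cf (f l) J)).im` for `u ∈ s` and `0 < (∑ l, r l * eu q u (cf (f l) J')).im` for `u ∈ t` is open and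
contains `β` (the value is `I`, `er_sum`, `er_up`), so it contains a rational point `r` (`Rat.denseRange_cast`,
`DenseRange.piMap`, or `Dense.exists_mem_open`); `b₁ = ∑ C (r l) * cf (f l) J`, `b₂ = ∑ C (r l) * cf (f l) J'`;
`ptQ (b₁ * P) (b₂ * Q) = ∑ (r l : ℂ) • ptQ (cf (f l) J * P) (cf (f l) J' * Q)`.
-/

set_option autoImplicit false

namespace Pool.Agent.Helper44.LT

open Pool.Agent.Helper34.LT Polynomial

/-- the point of a pair of rational polynomials -/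
noncomputable def ptQ (q : ℕ) (s t : Finset ℕ) (ρ1 : s → ℂ) (ρ2 : t → ℂ) (P Q : ℚ[X]) :
    s ⊕ t → ℂ :=
  Sum.elim (fun u => ρ1 u * eu q u P) (fun u => ρ2 u * eu q u Q)

/-- the point of a pair of real polynomials -/
noncomputable def ptR (q : ℕ) (s t : Finset ℕ) (ρ1 : s → ℂ) (ρ2 : t → ℂ) (P Q : ℝ[X]) :
    s ⊕ t → ℂ :=
  Sum.elim (fun u => ρ1 u * er q u P) (fun u => ρ2 u * er q u Q)

/-- `H` is the real span of the rational points in `H` -/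
def RatH (q : ℕ) (s t : Finset ℕ) (ρ1 : s → ℂ) (ρ2 : t → ℂ) (H : Submodule ℂ (s ⊕ t → ℂ)) :
    Prop :=
  ∀ x ∈ H, x ∈ Submodule.span ℝ {y : s ⊕ t → ℂ | y ∈ H ∧ ∃ P Q : ℚ[X],
    y = ptQ q s t ρ1 ρ2 P Q}

private theorem n7_ptQ_add (q : ℕ) (s t : Finset ℕ) (ρ1 : s → ℂ) (ρ2 : t → ℂ)
    (P Q P' Q' : ℚ[X]) : ptQ q s t ρ1 ρ2 (P + P') (Q + Q') =
      ptQ q s t ρ1 ρ2 P Q + ptQ q s t ρ1 ρ2 P' Q' := by
  funext w
  rcases w with u | u
  · change ρ1 u * eu q u (P + P') = ρ1 u * eu q u P + ρ1 u * eu q u P'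
    rw [eu_add, mul_add]
  · change ρ2 u * eu q u (Q + Q') = ρ2 u * eu q u Q + ρ2 u * eu q u Q'
    rw [eu_add, mul_add]

private theorem n7_ptR_add (q : ℕ) (s t : Finset ℕ) (ρ1 : s → ℂ) (ρ2 : t → ℂ)
    (P Q P' Q' : ℝ[X]) : ptR q s t ρ1 ρ2 (P + P') (Q + Q') =
      ptR q s t ρ1 ρ2 P Q + ptR q s t ρ1 ρ2 P' Q' := by
  funext w
  rcases w with u | u
  · change ρ1 u * er q u (P + P') = ρ1 u * er q u P + ρ1 u * er q u P'
    rw [er_add, mul_add]
  · change ρ2 u * er q u (Q + Q') = ρ2 u * er q u Q + ρ2 u * er q u Q'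
    rw [er_add, mul_add]

private theorem n7_ptR_smul (q : ℕ) (s t : Finset ℕ) (ρ1 : s → ℂ) (ρ2 : t → ℂ) (r : ℝ)
    (P Q : ℝ[X]) : ptR q s t ρ1 ρ2 (C r * P) (C r * Q) = r • ptR q s t ρ1 ρ2 P Q := by
  funext w
  rcases w with u | u
  · change ρ1 u * er q u (C r * P) = r • (ρ1 u * er q u P)
    rw [er_mul, er_C, Complex.real_smul]
    ring
  · change ρ2 u * er q u (C r * Q) = r • (ρ2 u * er q u Q)
    rw [er_mul, er_C, Complex.real_smul]
    ring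

private theorem n7_ptQ_smul (q : ℕ) (s t : Finset ℕ) (ρ1 : s → ℂ) (ρ2 : t → ℂ) (r : ℚ)
    (P Q : ℚ[X]) : ptQ q s t ρ1 ρ2 (C r * P) (C r * Q) = (r : ℂ) • ptQ q s t ρ1 ρ2 P Q := by
  funext w
  rcases w with u | u
  · change ρ1 u * eu q u (C r * P) = (r : ℂ) * (ρ1 u * eu q u P)
    rw [eu_mul, eu_C]
    ring
  · change ρ2 u * eu q u (C r * Q) = (r : ℂ) * (ρ2 u * eu q u Q)
    rw [eu_mul, eu_C]
    ring

private theorem n7_span (q : ℕ) (s t : Finset ℕ) (ρ1 : s → ℂ) (ρ2 : t → ℂ)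
    (H : Submodule ℂ (s ⊕ t → ℂ)) (x : s ⊕ t → ℂ)
    (hx : x ∈ Submodule.span ℝ {y : s ⊕ t → ℂ | y ∈ H ∧ ∃ P Q : ℚ[X],
      y = ptQ q s t ρ1 ρ2 P Q}) :
    ∃ P Q : ℝ[X], ptR q s t ρ1 ρ2 P Q = x ∧
      ∀ f : ℝ →ₗ[ℚ] ℚ, ptQ q s t ρ1 ρ2 (cf f P) (cf f Q) ∈ H := by
  induction hx using Submodule.span_induction with
  | mem x hx =>
    obtain ⟨hxH, P, Q, rfl⟩ := hx
    refine ⟨up P, up Q, ?_, ?_⟩
    · funext w
      rcases w with u | u
      · change ρ1 u * er q u (up P) = ρ1 u * eu q u P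
        rw [er_up]
      · change ρ2 u * er q u (up Q) = ρ2 u * eu q u Q
        rw [er_up]
    · intro f
      rw [cf_up, cf_up, n7_ptQ_smul]
      exact H.smul_mem _ hxH
  | zero =>
    refine ⟨0, 0, ?_, ?_⟩
    · funext w
      rcases w with u | u
      · change ρ1 u * er q u 0 = 0
        rw [er_zero, mul_zero]
      · change ρ2 u * er q u 0 = 0
        rw [er_zero, mul_zero]
    · intro f
      rw [cf_zero]
      have h0 : ptQ q s t ρ1 ρ2 0 0 = 0 := by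
        funext w
        rcases w with u | u
        · change ρ1 u * eu q u 0 = 0
          rw [eu_zero, mul_zero]
        · change ρ2 u * eu q u 0 = 0
          rw [eu_zero, mul_zero]
      rw [h0]
      exact H.zero_mem
  | add x y _ _ hx hy =>
    obtain ⟨P, Q, e1, h1⟩ := hx
    obtain ⟨P', Q', e2, h2⟩ := hy
    refine ⟨P + P', Q + Q', ?_, ?_⟩
    · rw [n7_ptR_add, e1, e2]
    · intro f
      rw [cf_add, cf_add, n7_ptQ_add]
      exact H.add_mem (h1 f) (h2 f)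
  | smul r x _ hx =>
    obtain ⟨P, Q, e1, h1⟩ := hx
    refine ⟨C r * P, C r * Q, ?_, ?_⟩
    · rw [n7_ptR_smul, e1]
    · intro f
      rw [cf_smul, cf_smul]
      exact h1 _

private theorem n7_eq (q : ℕ) (hq : 3 ≤ q) (s : Finset ℕ) (hs : CMt q s) (P P' : ℝ[X])
    (h : ∀ u ∈ s, er q u P' = er q u P) (f : ℝ →ₗ[ℚ] ℚ) (u : ℕ) (hu : u ∈ s) :
    eu q u (cf f P) = eu q u (cf f P') := by
  have h1 : ∀ v ∈ s, er q v (P - P') = 0 := by
    intro v hv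
    rw [er_sub, h v hv, sub_self]
  obtain ⟨A, hA⟩ := ker q hq s hs (P - P') h1
  have h2 : P = P' + A * up (cyclotomic q ℚ) := by
    have h3 : up (cyclotomic q ℚ) = cyclotomic q ℝ := by
      rw [up, Polynomial.map_cyclotomic]
    rw [h3]
    linear_combination hA
  rw [h2, cf_add, cf_mul, eu_add, eu_mul, ev_cyc q hq u (hs.rng u hu), mul_zero, add_zero]

theorem claimA (q : ℕ) (hq : 3 ≤ q) (s t : Finset ℕ) (hs : CMt q s) (ht : CMt q t)
    (ρ1 : s → ℂ) (ρ2 : t → ℂ) (h1 : ∀ u, ρ1 u ≠ 0) (h2 : ∀ u, ρ2 u ≠ 0)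
    (H : Submodule ℂ (s ⊕ t → ℂ)) (hr : RatH q s t ρ1 ρ2 H) (P Q : ℝ[X])
    (hPQ : ptR q s t ρ1 ρ2 P Q ∈ H) (f : ℝ →ₗ[ℚ] ℚ) :
    ptQ q s t ρ1 ρ2 (cf f P) (cf f Q) ∈ H := by
  obtain ⟨P', Q', e, h3⟩ := n7_span q s t ρ1 ρ2 H _ (hr _ hPQ)
  have h4 : ∀ u ∈ s, er q u P' = er q u P := by
    intro u hu
    have h5 := congrFun e (Sum.inl ⟨u, hu⟩)
    exact mul_left_cancel₀ (h1 ⟨u, hu⟩) h5
  have h5 : ∀ u ∈ t, er q u Q' = er q u Q := by
    intro u hu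
    have h6 := congrFun e (Sum.inr ⟨u, hu⟩)
    exact mul_left_cancel₀ (h2 ⟨u, hu⟩) h6
  have h6 : ptQ q s t ρ1 ρ2 (cf f P) (cf f Q) = ptQ q s t ρ1 ρ2 (cf f P') (cf f Q') := by
    funext w
    rcases w with u | u
    · change ρ1 u * eu q u (cf f P) = ρ1 u * eu q u (cf f P')
      rw [n7_eq q hq s hs P P' h4 f u u.2]
    · change ρ2 u * eu q u (cf f Q) = ρ2 u * eu q u (cf f Q')
      rw [n7_eq q hq t ht Q Q' h5 f u u.2]
  rw [h6]
  exact h3 f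

theorem exists_b (q : ℕ) (hq : 3 ≤ q) (s t : Finset ℕ) (hs : CMt q s) (ht : CMt q t)
    (ρ1 : s → ℂ) (ρ2 : t → ℂ) (h1 : ∀ u, ρ1 u ≠ 0) (h2 : ∀ u, ρ2 u ≠ 0)
    (H : Submodule ℂ (s ⊕ t → ℂ)) (hr : RatH q s t ρ1 ρ2 H) :
    ∃ b1 b2 : ℚ[X], (∀ u ∈ s, 0 < (eu q u b1).im) ∧ (∀ u ∈ t, 0 < (eu q u b2).im) ∧
      ∀ P Q : ℚ[X], ptQ q s t ρ1 ρ2 P Q ∈ H → ptQ q s t ρ1 ρ2 (b1 * P) (b2 * Q) ∈ H := by
  obtain ⟨J, hJ⟩ := surj q hq s hs (fun _ => Complex.I)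
  obtain ⟨J', hJ'⟩ := surj q hq t ht (fun _ => Complex.I)
  obtain ⟨m, f, β, hβ, hβ'⟩ := expand J J'
  have key : ∀ P Q : ℚ[X], ptQ q s t ρ1 ρ2 P Q ∈ H → ∀ g : ℝ →ₗ[ℚ] ℚ,
      ptQ q s t ρ1 ρ2 (cf g J * P) (cf g J' * Q) ∈ H := by
    intro P Q hPQ g
    have h3 : ptR q s t ρ1 ρ2 (J * up P) (J' * up Q) =
        Complex.I • ptQ q s t ρ1 ρ2 P Q := by
      funext w
      rcases w with u | u
      · change ρ1 u * er q u (J * up P) = Complex.I * (ρ1 u * eu q u P)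
        rw [er_mul, hJ u u.2, er_up]
        ring
      · change ρ2 u * er q u (J' * up Q) = Complex.I * (ρ2 u * eu q u Q)
        rw [er_mul, hJ' u u.2, er_up]
        ring
    have h4 := claimA q hq s t hs ht ρ1 ρ2 h1 h2 H hr (J * up P) (J' * up Q)
      (by rw [h3]; exact H.smul_mem _ hPQ) g
    rw [cf_mul, cf_mul] at h4
    exact h4
  have hval : ∀ (K : ℝ[X]) (u : ℕ), K = ∑ l, C (β l) * up (cf (f l) K) →
      er q u K = ∑ l, (β l : ℂ) * eu q u (cf (f l) K) := by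
    intro K u hK
    have h5 := congrArg (er q u) hK
    rw [er_sum] at h5
    rw [h5]
    refine Finset.sum_congr rfl fun l _ => ?_
    rw [er_mul, er_C, er_up]
  have hopen : ∀ (K : ℝ[X]) (u : ℕ),
      IsOpen {r : Fin m → ℝ | 0 < (∑ l, (r l : ℂ) * eu q u (cf (f l) K)).im} := by
    intro K u
    refine isOpen_lt continuous_const (Complex.continuous_im.comp ?_)
    refine continuous_finsetSum _ fun l _ => ?_
    exact (Complex.continuous_ofReal.comp (continuous_apply l)).mul continuous_const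
  have hU : IsOpen ((⋂ u ∈ s, {r : Fin m → ℝ | 0 < (∑ l, (r l : ℂ) * eu q u (cf (f l) J)).im}) ∩
      ⋂ u ∈ t, {r : Fin m → ℝ | 0 < (∑ l, (r l : ℂ) * eu q u (cf (f l) J')).im}) :=
    (isOpen_biInter_finset fun u _ => hopen J u).inter
      (isOpen_biInter_finset fun u _ => hopen J' u)
  have hβU : β ∈ ((⋂ u ∈ s, {r : Fin m → ℝ | 0 < (∑ l, (r l : ℂ) * eu q u (cf (f l) J)).im}) ∩
      ⋂ u ∈ t, {r : Fin m → ℝ | 0 < (∑ l, (r l : ℂ) * eu q u (cf (f l) J')).im}) := by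
    refine ⟨?_, ?_⟩
    · refine Set.mem_iInter₂.mpr fun u hu => ?_
      change 0 < (∑ l, (β l : ℂ) * eu q u (cf (f l) J)).im
      rw [← hval J u hβ, hJ u hu, Complex.I_im]
      exact one_pos
    · refine Set.mem_iInter₂.mpr fun u hu => ?_
      change 0 < (∑ l, (β l : ℂ) * eu q u (cf (f l) J')).im
      rw [← hval J' u hβ', hJ' u hu, Complex.I_im]
      exact one_pos
  have hdense : DenseRange (Pi.map (fun _ : Fin m => ((↑) : ℚ → ℝ))) :=
    DenseRange.piMap fun _ => Rat.denseRange_cast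
  obtain ⟨r, hr1, hr2⟩ := hdense.exists_mem_open hU ⟨β, hβU⟩
  have hev : ∀ (K : ℝ[X]) (u : ℕ), eu q u (∑ l, C (r l) * cf (f l) K) =
      ∑ l, (((r l : ℚ) : ℝ) : ℂ) * eu q u (cf (f l) K) := by
    intro K u
    rw [eu_sum]
    refine Finset.sum_congr rfl fun l _ => ?_
    rw [eu_mul, eu_C]
    push_cast
    rfl
  refine ⟨∑ l, C (r l) * cf (f l) J, ∑ l, C (r l) * cf (f l) J', ?_, ?_, ?_⟩
  · intro u hu
    rw [hev]
    exact Set.mem_iInter₂.mp hr1 u hu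
  · intro u hu
    rw [hev]
    exact Set.mem_iInter₂.mp hr2 u hu
  · intro P Q hPQ
    have h6 : ptQ q s t ρ1 ρ2 ((∑ l, C (r l) * cf (f l) J) * P)
        ((∑ l, C (r l) * cf (f l) J') * Q) =
        ∑ l, (((r l : ℚ) : ℝ) : ℂ) • ptQ q s t ρ1 ρ2 (cf (f l) J * P) (cf (f l) J' * Q) := by
      funext w
      rw [Finset.sum_apply]
      rcases w with u | u
      · change ρ1 u * eu q u ((∑ l, C (r l) * cf (f l) J) * P) =
          ∑ l, (((r l : ℚ) : ℝ) : ℂ) * (ρ1 u * eu q u (cf (f l) J * P))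
        rw [eu_mul, hev, Finset.sum_mul, Finset.mul_sum]
        refine Finset.sum_congr rfl fun l _ => ?_
        rw [eu_mul]
        ring
      · change ρ2 u * eu q u ((∑ l, C (r l) * cf (f l) J') * Q) =
          ∑ l, (((r l : ℚ) : ℝ) : ℂ) * (ρ2 u * eu q u (cf (f l) J' * Q))
        rw [eu_mul, hev, Finset.sum_mul, Finset.mul_sum]
        refine Finset.sum_congr rfl fun l _ => ?_
        rw [eu_mul]
        ring
    rw [h6]
    exact H.sum_mem fun l _ => H.smul_mem _ (key P Q hPQ (f l))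

end Pool.Agent.Helper44.LT
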