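import Pool.Agent.Helper44.LT.P1

/-!
PROJECT LT, PIECE N3 (prime levels): `Phi q 1 3` is primitive.

Let `S' = (0, q/4) ∪ (q/3, q/2) ∪ (2q/3, 3q/4)` be the complement (`inS`), `S' h = S'` mod `q`, in the form `hS`:
if `k ∈ S'` and `k h = m q + r`, `0 ≤ r < q`, then `r ∈ S'`. Every `k < q / 4` is in `S'` (`4 k < q`).
PROOF of `inS_three`. `h ∈ S'` (`k = 1`, `m = 0`).
* `12 h ≤ q`, `2 ≤ h`: `k` = the smallest number with `q < 4 k h` (`4 (k - 1) h ≤ q`), so `q < 4 k h ≤ q + 4 h`, and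
  `3 k h < q` (`12 k h ≤ 3 q + 12 h ≤ 4 q`; `q` is prime to `12`, or strict somewhere); `k ≤ q / 8 + 1 < q / 4`; `k h` is in
  `(q/4, q/3)`, not in `S'`.
* `q < 12 h`, `8 h < q`: `k = 3`, `3 h ∈ (q/4, 3q/8)`, so `q < 9 h`; `k = 5`: `5 h ∈ (5q/9, 5q/8) ⊆ (q/2, 2q/3)`: no.
* `q < 8 h`, `6 h < q`: `k = 2`, `2 h ∈ (q/4, q/3)`: no.
* `q < 6 h`, `4 h < q`: `k = 3`, `3 h ∈ (q/2, 3q/4)`, so `2 q < 9 h`; `k = 4`: `4 h ∈ (8q/9, q)`: no.
* `q < 3 h`, `2 h < q`: `k = 2`: `2 h ∈ (2q/3, q)`, so `8 h < 3 q`; `k = 5`: `5 h = q + r`, `r ∈ (2q/3, 7q/8)`, so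
  `20 h < 7 q`. Put `e = 3 h - q` (`1 ≤ e`, `20 e < q`). For `k = 3 i + 2` with `4 k < q`: `4 k e < q`, by induction on `i`:
  `k h = (k / 3) q + r` with `3 r = 2 q + k e` (`3 k h = k q + k e`), `k e < q / 4 + 3 e < q`, so `r < q`, `r ∈ S'` and
  `3 r > 2 q`, so `4 r < 3 q`, i.e. `4 k e < q`. For the largest `k = 3 i + 2` with `4 k < q`: `4 (k + 3) ≥ q`; if
  `2 ≤ e` then `8 k < q`, so `q > 8 k ≥ 2 q - 24`, `q < 24`: no. So `e = 1`.
* `2 q < 3 h`, `4 h < 3 q`: `k = 4`: `4 h = 2 q + r`, `r ∈ (2q/3, q)`, so `r < 3q/4`, `16 h < 11 q`. Put `e = 3 h - 2 q`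
  (`16 e < q`). For `k = 3 i + 1` with `4 k < q`: `4 k e < q`, by induction as before: `3 k h = 2 k q + k e`, `2 k = 3 (2 i) + 2`,
  so `k h = (2 i) q + r`, `3 r = 2 q + k e`. So `e = 1`.
`inS_false`: if `3 h = q + 1` or `3 h = 2 q + 1`, and (`k ∈ S'` iff `(k h) % q ∈ S'`): take `k = 3 m` with
`m = q / 6 + 1`: `q < 6 m`, `9 m < 2 q`; `k h = 3 h m` is `m` mod `q` and `m ∈ S'` (`4 m < q`), `k = 3 m ∈ (q/2, 2q/3)` is
not in `S'`. `prm13`: `mem13`, `Nat.div_add_mod`, the two lemmas (`h ∈ S'` since `1 ∉ Phi q 1 3`).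
-/

set_option autoImplicit false

namespace Pool.Agent.Helper44.LT.P

open Pool.Agent.Helper34.LT Finset

/-- the complement of `Phi q 1 3` -/
def inS (q r : ℕ) : Prop :=
  1 ≤ r ∧ (4 * r < q ∨ (q < 3 * r ∧ 2 * r < q) ∨ (2 * q < 3 * r ∧ 4 * r < 3 * q))

theorem not_mem13 (q : ℕ) (hq : q.Prime) (h5 : 5 ≤ q) (u : ℕ) (h1 : 1 ≤ u) (h2 : u < q) :
    u ∉ Phi q 1 3 ↔ inS q u := by
  have q2 : q % 2 ≠ 0 := fun h => by
    have := (Nat.prime_dvd_prime_iff_eq Nat.prime_two hq).1 (Nat.dvd_of_mod_eq_zero h)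
    omega
  have q3 : q % 3 ≠ 0 := fun h => by
    have := (Nat.prime_dvd_prime_iff_eq Nat.prime_three hq).1 (Nat.dvd_of_mod_eq_zero h)
    omega
  rw [mem13 q hq h5, inS]
  omega

theorem inS_small (q h : ℕ) (hq : q.Prime) (h41 : 41 ≤ q) (h2 : 2 ≤ h) (h4 : 4 * h < q)
    (hS : ∀ k m r, inS q k → k * h = m * q + r → r < q → inS q r) : False := by
  have q2 : q % 2 ≠ 0 := fun h => by
    have := (Nat.prime_dvd_prime_iff_eq Nat.prime_two hq).1 (Nat.dvd_of_mod_eq_zero h)
    omega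
  have q3 : q % 3 ≠ 0 := fun h => by
    have := (Nat.prime_dvd_prime_iff_eq Nat.prime_three hq).1 (Nat.dvd_of_mod_eq_zero h)
    omega
  unfold inS at hS
  rcases le_or_gt (12 * h) q with h12 | h12
  · have hd := Nat.div_add_mod q (4 * h)
    have hm := Nat.mod_lt q (show 0 < 4 * h by omega)
    have hle : q / (4 * h) ≤ q / 8 := Nat.div_le_div_left (by omega) (by norm_num)
    generalize q / (4 * h) = k at hd hle
    generalize q % (4 * h) = r at hd hm
    have e1 : 4 * h * k = 4 * (k * h) := by ring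
    rw [e1] at hd
    have e2 : (k + 1) * h = k * h + h := by ring
    have := hS (k + 1) 0 (k * h + h) ⟨by omega, Or.inl (by omega)⟩ (by omega) (by omega)
    omega
  · rcases lt_or_ge (8 * h) q with h8 | h8
    · have a3 := hS 3 0 (3 * h) ⟨by omega, Or.inl (by omega)⟩ (by omega) (by omega)
      have a5 := hS 5 0 (5 * h) ⟨by omega, Or.inl (by omega)⟩ (by omega) (by omega)
      omega
    · rcases lt_or_ge (6 * h) q with h6 | h6
      · have a2 := hS 2 0 (2 * h) ⟨by omega, Or.inl (by omega)⟩ (by omega) (by omega)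
        omega
      · have a3 := hS 3 0 (3 * h) ⟨by omega, Or.inl (by omega)⟩ (by omega) (by omega)
        have a4 := hS 4 0 (4 * h) ⟨by omega, Or.inl (by omega)⟩ (by omega) (by omega)
        omega

theorem inS_mid (q h : ℕ) (hq : q.Prime) (h41 : 41 ≤ q) (h3 : q < 3 * h) (h2 : 2 * h < q)
    (hS : ∀ k m r, inS q k → k * h = m * q + r → r < q → inS q r) : 3 * h = q + 1 := by
  unfold inS at hS
  have a2 := hS 2 0 (2 * h) ⟨by omega, Or.inl (by omega)⟩ (by omega) (by omega)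
  have a5 := hS 5 1 (5 * h - q) ⟨by omega, Or.inl (by omega)⟩ (by omega) (by omega)
  have h20 : 20 * h < 7 * q := by omega
  obtain ⟨e, he⟩ : ∃ e, 3 * h = q + e := ⟨3 * h - q, by omega⟩
  have he1 : 1 ≤ e := by omega
  have he20 : 20 * e < q := by omega
  have ind : ∀ i, 4 * (3 * i + 2) < q → 4 * (3 * i + 2) * e < q := by
    intro i
    induction i with
    | zero => intro _; omega
    | succ i ih =>
      intro hi
      have h1 := ih (by omega)
      have hA : 3 * (i * h) = i * q + i * e := by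
        have : i * (3 * h) = i * (q + e) := by rw [he]
        linarith
      have h1' : 12 * (i * e) + 8 * e < q := by
        have : 4 * (3 * i + 2) * e = 12 * (i * e) + 8 * e := by ring
        omega
      have hr := hS (3 * (i + 1) + 2) (i + 1) (i * e + 5 * h - q) ⟨by omega, Or.inl (by omega)⟩
        (by
          have e1 : (3 * (i + 1) + 2) * h = 3 * (i * h) + 5 * h := by ring
          have e2 : (i + 1) * q = i * q + q := by ring
          rw [e1, e2]
          omega) (by omega)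
      have e3 : 4 * (3 * (i + 1) + 2) * e = 12 * (i * e) + 20 * e := by ring
      rw [e3]
      omega
  by_contra hne
  have he2 : 2 ≤ e := by omega
  have h4 := ind ((q - 9) / 12) (by omega)
  have h5 : 4 * (3 * ((q - 9) / 12) + 2) * 2 ≤ 4 * (3 * ((q - 9) / 12) + 2) * e :=
    Nat.mul_le_mul_left _ he2
  omega

theorem inS_big (q h : ℕ) (hq : q.Prime) (h41 : 41 ≤ q) (h3 : 2 * q < 3 * h) (h2 : 4 * h < 3 * q)
    (hS : ∀ k m r, inS q k → k * h = m * q + r → r < q → inS q r) : 3 * h = 2 * q + 1 := by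
  unfold inS at hS
  have a4 := hS 4 2 (4 * h - 2 * q) ⟨by omega, Or.inl (by omega)⟩ (by omega) (by omega)
  have h20 : 16 * h < 11 * q := by omega
  obtain ⟨e, he⟩ : ∃ e, 3 * h = 2 * q + e := ⟨3 * h - 2 * q, by omega⟩
  have he1 : 1 ≤ e := by omega
  have he20 : 16 * e < q := by omega
  have ind : ∀ i, 4 * (3 * i + 1) < q → 4 * (3 * i + 1) * e < q := by
    intro i
    induction i with
    | zero => intro _; omega
    | succ i ih =>
      intro hi
      have h1 := ih (by omega)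
      have hA : 3 * (i * h) = 2 * (i * q) + i * e := by
        have : i * (3 * h) = i * (2 * q + e) := by rw [he]
        linarith
      have h1' : 12 * (i * e) + 4 * e < q := by
        have : 4 * (3 * i + 1) * e = 12 * (i * e) + 4 * e := by ring
        omega
      have hr := hS (3 * (i + 1) + 1) (2 * (i + 1)) (i * e + 4 * h - 2 * q)
        ⟨by omega, Or.inl (by omega)⟩
        (by
          have e1 : (3 * (i + 1) + 1) * h = 3 * (i * h) + 4 * h := by ring
          have e2 : 2 * (i + 1) * q = 2 * (i * q) + 2 * q := by ring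
          rw [e1, e2]
          omega) (by omega)
      have e3 : 4 * (3 * (i + 1) + 1) * e = 12 * (i * e) + 16 * e := by ring
      rw [e3]
      omega
  by_contra hne
  have he2 : 2 ≤ e := by omega
  have h4 := ind ((q - 5) / 12) (by omega)
  have h5 : 4 * (3 * ((q - 5) / 12) + 1) * 2 ≤ 4 * (3 * ((q - 5) / 12) + 1) * e :=
    Nat.mul_le_mul_left _ he2
  omega

theorem prm13 (q : ℕ) (hq : q.Prime) (h41 : 41 ≤ q) : Prm q (Phi q 1 3) := by
  intro h hh0 hst'
  obtain ⟨hh1, hh2, -⟩ := hh0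
  have hst := fun u (hu1 : 1 ≤ u) (hu2 : u < q) => hst' u (un_prime hq hu1 hu2)
  have hmod : ∀ k m r : ℕ, k * h = m * q + r → r < q → (k * h) % q = r := by
    intro k m r hk hr
    rw [hk, Nat.mul_add_mod', Nat.mod_eq_of_lt hr]
  have hS : ∀ k m r, inS q k → k * h = m * q + r → r < q → inS q r := by
    intro k m r hk hkr hr
    have hk1 : 1 ≤ k := hk.1
    have hk2 : k < q := by
      have := hk.2
      omega
    have hm := hmod k m r hkr hr
    have hr1 : 1 ≤ r := by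
      by_contra hcon
      have hr0 : r = 0 := by omega
      rw [hr0] at hm
      rcases hq.dvd_mul.1 (Nat.dvd_of_mod_eq_zero hm) with h' | h'
      · exact absurd (Nat.le_of_dvd hk1 h') (by omega)
      · exact absurd (Nat.le_of_dvd hh1 h') (by omega)
    rw [← not_mem13 q hq (by omega) k hk1 hk2, hst k hk1 hk2, hm] at hk
    exact (not_mem13 q hq (by omega) r hr1 hr).1 hk
  have hh : inS q h := hS 1 0 h ⟨le_rfl, Or.inl (by omega)⟩ (by omega) hh2
  have hfin : ∀ c : ℕ, 3 * h = c * q + 1 → False := by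
    intro c hc
    have hm1 : q < 6 * (q / 6 + 1) := by omega
    have hm2 : 9 * (q / 6 + 1) < 2 * q := by omega
    have h1 : 3 * (q / 6 + 1) ∈ Phi q 1 3 := by
      rw [mem13 q hq (by omega)]
      omega
    rw [hst _ (by omega) (by omega)] at h1
    have h2 : 3 * (q / 6 + 1) * h = (q / 6 + 1) * c * q + (q / 6 + 1) := by
      calc 3 * (q / 6 + 1) * h = (q / 6 + 1) * (3 * h) := by ring
        _ = (q / 6 + 1) * c * q + (q / 6 + 1) := by rw [hc]; ring
    rw [hmod _ _ _ h2 (by omega)] at h1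
    exact (not_mem13 q hq (by omega) _ (by omega) (by omega)).2 ⟨by omega, Or.inl (by omega)⟩ h1
  by_contra hne
  rcases hh.2 with h4 | h4 | h4
  · exact inS_small q h hq h41 (by omega) h4 hS
  · exact hfin 1 (by have := inS_mid q h hq h41 h4.1 h4.2 hS; omega)
  · exact hfin 2 (by have := inS_big q h hq h41 h4.1 h4.2 hS; omega)

end Pool.Agent.Helper44.LT.P
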