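import Pool.Agent.Helper44.LT.P2
import Pool.Agent.Helper44.LT.P3
import Pool.Agent.Helper44.LT.N7
import Pool.Agent.Helper44.LT.N8
import Pool.Agent.Helper44.LT.N9

/-!
PROJECT LT, PIECE N10: assembly: `subtori` (the only complex subspaces which are spanned by lattice
points and are not `0` contain one of the two factors).
-/

set_option autoImplicit false

namespace Pool.Agent.Helper44.LT

open Pool.Agent.Helper34.LT Polynomial

private theorem n10_congr (q : ℕ) (s t : Finset ℕ) (hs : CMt q s) (ht : CMt q t)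
    (ρ1 : s → ℂ) (ρ2 : t → ℂ) {P P' Q Q' : ℚ[X]}
    (hP : ∀ u, Un q u → eu q u P = eu q u P')
    (hQ : ∀ u, Un q u → eu q u Q = eu q u Q') :
    ptQ q s t ρ1 ρ2 P Q = ptQ q s t ρ1 ρ2 P' Q' := by
  funext u
  rcases u with u | u
  · have h := hs.rng u u.2
    simp only [ptQ, Sum.elim_inl, hP u h]
  · have h := ht.rng u u.2
    simp only [ptQ, Sum.elim_inr, hQ u h]

/-- all rational polynomials act through `b` -/
private theorem n10_comp (q : ℕ) (s t : Finset ℕ) (ρ1 : s → ℂ) (ρ2 : t → ℂ)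
    (H : Submodule ℂ (s ⊕ t → ℂ)) (b1 b2 : ℚ[X])
    (hb : ∀ P Q : ℚ[X], ptQ q s t ρ1 ρ2 P Q ∈ H → ptQ q s t ρ1 ρ2 (b1 * P) (b2 * Q) ∈ H)
    (G P Q : ℚ[X]) (h : ptQ q s t ρ1 ρ2 P Q ∈ H) :
    ptQ q s t ρ1 ρ2 (G.comp b1 * P) (G.comp b2 * Q) ∈ H := by
  induction G using Polynomial.induction_on generalizing P Q with
  | C a =>
    rw [C_comp, C_comp]
    have : ptQ q s t ρ1 ρ2 (C a * P) (C a * Q) = (a : ℂ) • ptQ q s t ρ1 ρ2 P Q := by
      funext u
      rcases u with u | u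
      · simp only [ptQ, Sum.elim_inl, Pi.smul_apply, smul_eq_mul, eu_mul, eu_C]
        ring
      · simp only [ptQ, Sum.elim_inr, Pi.smul_apply, smul_eq_mul, eu_mul, eu_C]
        ring
    rw [this]
    exact H.smul_mem _ h
  | add p r hp hr =>
    have : ptQ q s t ρ1 ρ2 ((p + r).comp b1 * P) ((p + r).comp b2 * Q) =
        ptQ q s t ρ1 ρ2 (p.comp b1 * P) (p.comp b2 * Q) +
          ptQ q s t ρ1 ρ2 (r.comp b1 * P) (r.comp b2 * Q) := by
      funext u
      rcases u with u | u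
      · simp only [ptQ, Sum.elim_inl, Pi.add_apply, eu_mul, add_comp, eu_add]
        ring
      · simp only [ptQ, Sum.elim_inr, Pi.add_apply, eu_mul, add_comp, eu_add]
        ring
    rw [this]
    exact H.add_mem (hp P Q h) (hr P Q h)
  | monomial n a ih =>
    have h1 := ih (b1 * P) (b2 * Q) (hb P Q h)
    have e1 : (C a * X ^ (n + 1)).comp b1 * P = (C a * X ^ n).comp b1 * (b1 * P) := by
      simp only [mul_comp, C_comp, pow_comp, X_comp]
      ring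
    have e2 : (C a * X ^ (n + 1)).comp b2 * Q = (C a * X ^ n).comp b2 * (b2 * Q) := by
      simp only [mul_comp, C_comp, pow_comp, X_comp]
      ring
    rw [e1, e2]
    exact h1

/-- real polynomials are real combinations of rational ones -/
private theorem n10_real (q : ℕ) (s t : Finset ℕ) (ρ1 : s → ℂ) (ρ2 : t → ℂ)
    (H : Submodule ℂ (s ⊕ t → ℂ)) (P : ℝ[X])
    (h : ∀ R : ℚ[X], ptQ q s t ρ1 ρ2 R 0 ∈ H) : ptR q s t ρ1 ρ2 P 0 ∈ H := by
  have hz : ∀ u, er q u (0 : ℝ[X]) = 0 := fun u => er_zero q u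
  induction P using Polynomial.induction_on' with
  | add p r hp hr =>
    have : ptR q s t ρ1 ρ2 (p + r) 0 = ptR q s t ρ1 ρ2 p 0 + ptR q s t ρ1 ρ2 r 0 := by
      funext u
      rcases u with u | u
      · simp only [ptR, Sum.elim_inl, Pi.add_apply, er_add]
        ring
      · simp only [ptR, Sum.elim_inr, Pi.add_apply, hz]
        ring
    rw [this]
    exact H.add_mem hp hr
  | monomial n a =>
    have : ptR q s t ρ1 ρ2 (monomial n a) 0 = (a : ℂ) • ptQ q s t ρ1 ρ2 (X ^ n) 0 := by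
      have e : (monomial n a : ℝ[X]) = C a * up (X ^ n) := by
        rw [up, Polynomial.map_pow, map_X, C_mul_X_pow_eq_monomial]
      funext u
      rcases u with u | u
      · simp only [ptR, ptQ, Sum.elim_inl, Pi.smul_apply, smul_eq_mul, e, er_mul, er_C, er_up]
        ring
      · simp only [ptR, ptQ, Sum.elim_inr, Pi.smul_apply, smul_eq_mul, hz, eu_zero]
        ring
    rw [this]
    exact H.smul_mem _ (h _)

private theorem n10_real' (q : ℕ) (s t : Finset ℕ) (ρ1 : s → ℂ) (ρ2 : t → ℂ)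
    (H : Submodule ℂ (s ⊕ t → ℂ)) (P : ℝ[X])
    (h : ∀ R : ℚ[X], ptQ q s t ρ1 ρ2 0 R ∈ H) : ptR q s t ρ1 ρ2 0 P ∈ H := by
  have hz : ∀ u, er q u (0 : ℝ[X]) = 0 := fun u => er_zero q u
  induction P using Polynomial.induction_on' with
  | add p r hp hr =>
    have : ptR q s t ρ1 ρ2 0 (p + r) = ptR q s t ρ1 ρ2 0 p + ptR q s t ρ1 ρ2 0 r := by
      funext u
      rcases u with u | u
      · simp only [ptR, Sum.elim_inl, Pi.add_apply, hz]
        ring
      · simp only [ptR, Sum.elim_inr, Pi.add_apply, er_add]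
        ring
    rw [this]
    exact H.add_mem hp hr
  | monomial n a =>
    have : ptR q s t ρ1 ρ2 0 (monomial n a) = (a : ℂ) • ptQ q s t ρ1 ρ2 0 (X ^ n) := by
      have e : (monomial n a : ℝ[X]) = C a * up (X ^ n) := by
        rw [up, Polynomial.map_pow, map_X, C_mul_X_pow_eq_monomial]
      funext u
      rcases u with u | u
      · simp only [ptR, ptQ, Sum.elim_inl, Pi.smul_apply, smul_eq_mul, hz, eu_zero]
        ring
      · simp only [ptR, ptQ, Sum.elim_inr, Pi.smul_apply, smul_eq_mul, e, er_mul, er_C, er_up]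
        ring
    rw [this]
    exact H.smul_mem _ (h _)

theorem subtori_gen (q : ℕ) (hq : 3 ≤ q) (s t : Finset ℕ) (hs : CMt q s) (ht : CMt q t)
    (ps : Prm q s) (pt' : Prm q t) (hn : NCj q s t)
    (ρ1 : s → ℂ) (ρ2 : t → ℂ) (h1 : ∀ u, ρ1 u ≠ 0) (h2 : ∀ u, ρ2 u ≠ 0)
    (H : Submodule ℂ (s ⊕ t → ℂ)) (hH : H ≠ ⊥) (hr : RatH q s t ρ1 ρ2 H) :
    (∀ x : s ⊕ t → ℂ, (∀ v, x (Sum.inr v) = 0) → x ∈ H) ∨
      (∀ x : s ⊕ t → ℂ, (∀ v, x (Sum.inl v) = 0) → x ∈ H) := by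
  classical
  obtain ⟨b1, b2, hb1, hb2, hb⟩ := exists_b q hq s t hs ht ρ1 ρ2 h1 h2 H hr
  have hi1 : ∀ u v, Un q u → Un q v → eu q u b1 = eu q v b1 → u = v :=
    fun u v hu hv h => b_inj q hq s hs ps b1 hb1 u v hu hv h
  have hi2 : ∀ u v, Un q u → Un q v → eu q u b2 = eu q v b2 → u = v :=
    fun u v hu hv h => b_inj q hq t ht pt' b2 hb2 u v hu hv h
  obtain ⟨G, hG⟩ := sep q hq b1 b2 hi1
    (fun h hh => b_ncj q hq s t hs ht hn b1 b2 hb1 hb2 h hh)
  have hcomp := n10_comp q s t ρ1 ρ2 H b1 b2 hb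
  have hq1 : Un q 1 := Un.one q hq
  -- a nonzero rational point of `H`
  have hne : ∃ P Q : ℚ[X], ptQ q s t ρ1 ρ2 P Q ∈ H ∧ ptQ q s t ρ1 ρ2 P Q ≠ 0 := by
    by_contra hcon
    push Not at hcon
    apply hH
    rw [eq_bot_iff]
    intro x hx
    have hx' := hr x hx
    have hsub : Submodule.span ℝ {y : s ⊕ t → ℂ | y ∈ H ∧ ∃ P Q : ℚ[X],
        y = ptQ q s t ρ1 ρ2 P Q} ≤ ⊥ := by
      rw [Submodule.span_le]
      rintro y ⟨hy, P, Q, rfl⟩
      exact hcon P Q hy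
    have := hsub hx'
    rw [Submodule.mem_bot] at this ⊢
    exact this
  obtain ⟨P, Q, hPQ, hPQ0⟩ := hne
  have hcase : eu q 1 P ≠ 0 ∨ eu q 1 Q ≠ 0 := by
    by_contra hcon
    push Not at hcon
    apply hPQ0
    funext u
    rcases u with u | u
    · have h := hs.rng u u.2
      simp only [ptQ, Sum.elim_inl, Pi.zero_apply,
        ratl q hq P 1 u hq1 h hcon.1, mul_zero]
    · have h := ht.rng u u.2
      simp only [ptQ, Sum.elim_inr, Pi.zero_apply,
        ratl q hq Q 1 u hq1 h hcon.2, mul_zero]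
  rcases hcase with hP | hQ
  · left
    have hP0 : ptQ q s t ρ1 ρ2 P 0 ∈ H := by
      have h := hcomp G P Q hPQ
      rw [n10_congr q s t hs ht ρ1 ρ2 (P' := P) (Q' := 0)] at h
      · exact h
      · intro u hu
        rw [eu_mul, (hG u hu).1, one_mul]
      · intro u hu
        rw [eu_mul, (hG u hu).2, zero_mul, eu_zero]
    have hall : ∀ R : ℚ[X], ptQ q s t ρ1 ρ2 R 0 ∈ H := by
      intro R
      obtain ⟨G', hG'⟩ := gen q hq b1 hi1 P R hP
      have h := hcomp G' P 0 hP0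
      rw [n10_congr q s t hs ht ρ1 ρ2 (P' := R) (Q' := 0)] at h
      · exact h
      · exact hG'
      · intro u _
        rw [mul_zero]
    intro x hx
    obtain ⟨R, hR⟩ := surj q hq s hs (fun u => if hu : u ∈ s then x (Sum.inl ⟨u, hu⟩) / ρ1 ⟨u, hu⟩ else 0)
    have h := n10_real q s t ρ1 ρ2 H R hall
    have e : ptR q s t ρ1 ρ2 R 0 = x := by
      funext u
      rcases u with u | u
      · simp only [ptR, Sum.elim_inl]
        rw [hR u u.2, dif_pos u.2, mul_div_cancel₀ _ (h1 _)]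
      · simp only [ptR, Sum.elim_inr]
        rw [er_zero, mul_zero, hx u]
    rwa [e] at h
  · right
    have hQ0 : ptQ q s t ρ1 ρ2 0 Q ∈ H := by
      have h := hcomp (1 - G) P Q hPQ
      rw [n10_congr q s t hs ht ρ1 ρ2 (P' := 0) (Q' := Q)] at h
      · exact h
      · intro u hu
        rw [eu_mul, sub_comp, one_comp, eu_sub, eu_one, (hG u hu).1, sub_self, zero_mul,
          eu_zero]
      · intro u hu
        rw [eu_mul, sub_comp, one_comp, eu_sub, eu_one, (hG u hu).2, sub_zero, one_mul]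
    have hall : ∀ R : ℚ[X], ptQ q s t ρ1 ρ2 0 R ∈ H := by
      intro R
      obtain ⟨G', hG'⟩ := gen q hq b2 hi2 Q R hQ
      have h := hcomp G' 0 Q hQ0
      rw [n10_congr q s t hs ht ρ1 ρ2 (P' := 0) (Q' := R)] at h
      · exact h
      · intro u _
        rw [mul_zero]
      · exact hG'
    intro x hx
    obtain ⟨R, hR⟩ := surj q hq t ht (fun u => if hu : u ∈ t then x (Sum.inr ⟨u, hu⟩) / ρ2 ⟨u, hu⟩ else 0)
    have h := n10_real' q s t ρ1 ρ2 H R hall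
    have e : ptR q s t ρ1 ρ2 0 R = x := by
      funext u
      rcases u with u | u
      · simp only [ptR, Sum.elim_inl]
        rw [er_zero, mul_zero, hx u]
      · simp only [ptR, Sum.elim_inr]
        rw [hR u u.2, dif_pos u.2, mul_div_cancel₀ _ (h2 _)]
    rwa [e] at h

theorem subtori (q : ℕ) (hq : q.Prime) (h : 41 ≤ q) (ρ1 : Phi q 1 1 → ℂ) (ρ2 : Phi q 1 3 → ℂ)
    (h1 : ∀ u, ρ1 u ≠ 0) (h2 : ∀ u, ρ2 u ≠ 0)
    (H : Submodule ℂ (Phi q 1 1 ⊕ Phi q 1 3 → ℂ)) (hH : H ≠ ⊥)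
    (hr : ∀ x ∈ H, x ∈ Submodule.span ℝ {y : Phi q 1 1 ⊕ Phi q 1 3 → ℂ | y ∈ H ∧
      ∃ P Q : Polynomial ℤ, y = Sum.elim (fun u => ρ1 u * pt q _ P u) (fun u => ρ2 u * pt q _ Q u)}) :
    (∀ x : Phi q 1 1 ⊕ Phi q 1 3 → ℂ, (∀ v, x (Sum.inr v) = 0) → x ∈ H) ∨
      (∀ x : Phi q 1 1 ⊕ Phi q 1 3 → ℂ, (∀ v, x (Sum.inl v) = 0) → x ∈ H) := by
  refine subtori_gen q (by omega) _ _ (P.cmt11 q hq (by omega)) (P.cmt13 q hq (by omega))
    (P.prm11 q hq h) (P.prm13 q hq h) (P.ncj q hq h) ρ1 ρ2 h1 h2 H hH fun x hx => ?_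
  refine Submodule.span_mono ?_ (hr x hx)
  rintro y ⟨hy, P, Q, rfl⟩
  refine ⟨hy, P.map (algebraMap ℤ ℚ), Q.map (algebraMap ℤ ℚ), ?_⟩
  funext u
  rcases u with u | u
  · simp only [ptQ, Sum.elim_inl, pt, eu, aeval_map_algebraMap]
  · simp only [ptQ, Sum.elim_inr, pt, eu, aeval_map_algebraMap]

theorem mem_Phi_sub (q a b : ℕ) (hq : q.Prime) (ha : ¬ q ∣ a) (hb : ¬ q ∣ b) (hab : ¬ q ∣ a + b)
    (u : ℕ) (h1 : 1 ≤ u) (h2 : u < q) : u ∈ Phi q a b ↔ q - u ∉ Phi q a b :=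
  P.mem_Phi_sub q a b hq ha hb hab u h1 h2

theorem card_Phi (q a b : ℕ) (hq : q.Prime) (hq3 : 3 ≤ q) (ha : ¬ q ∣ a) (hb : ¬ q ∣ b)
    (hab : ¬ q ∣ a + b) : (Phi q a b).card = (q - 1) / 2 :=
  P.card_Phi q a b hq hq3 ha hb hab

theorem card_Psi (q : ℕ) (hq : q.Prime) (h : 17 ≤ q) :
    (Psi q).card = (q - 1) / 2 + (q / 3 - q / 4) :=
  P.card_Psi q hq h

theorem ineq_q (q : ℕ) (hq : q.Prime) (h : 83 ≤ q) :
    5 * (q / 3 - q / 4) + 4 < (q - 1) / 2 :=
  P.ineq_q q hq h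

end Pool.Agent.Helper44.LT
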