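import Pool.Agent.Helper44.LT.N0

/-!
PROJECT LT, PIECE N1: the CM types `PU q 1 1`, `PU q 1 3`, and 3-smooth numbers in intervals.
-/

set_option autoImplicit false

namespace Pool.Agent.Helper44.LT

open Pool.Agent.Helper34.LT Finset

theorem cop6 {q : ℕ} (h6 : Nat.Coprime q 6) : q % 2 ≠ 0 ∧ q % 3 ≠ 0 := by
  constructor
  · intro h
    have h1 : 2 ∣ Nat.gcd q 6 := Nat.dvd_gcd (Nat.dvd_of_mod_eq_zero h) (by norm_num)
    rw [Nat.Coprime] at h6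
    rw [h6] at h1
    norm_num at h1
  · intro h
    have h1 : 3 ∣ Nat.gcd q 6 := Nat.dvd_gcd (Nat.dvd_of_mod_eq_zero h) (by norm_num)
    rw [Nat.Coprime] at h6
    rw [h6] at h1
    norm_num at h1

theorem cop2 {q : ℕ} (h6 : Nat.Coprime q 6) : Nat.Coprime 2 q :=
  (Nat.Coprime.coprime_dvd_right (by norm_num) h6).symm

theorem cop3 {q : ℕ} (h6 : Nat.Coprime q 6) : Nat.Coprime 3 q :=
  (Nat.Coprime.coprime_dvd_right (by norm_num) h6).symm

theorem mem11 (q : ℕ) (u : ℕ) : u ∈ PU q 1 1 ↔ Un q u ∧ q < 2 * u := by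
  rw [PU, mem_filter, mem_filter, mem_Icc, mul_one, Un]
  constructor
  · rintro ⟨⟨⟨h1, h2⟩, h3⟩, h4⟩
    have h5 : u < q := by omega
    rw [Nat.mod_eq_of_lt h5] at h3
    exact ⟨⟨h1, h5, h4⟩, by omega⟩
  · rintro ⟨⟨h1, h2, h4⟩, h3⟩
    rw [Nat.mod_eq_of_lt h2]
    exact ⟨⟨⟨h1, by omega⟩, by omega⟩, h4⟩

theorem mem13 (q : ℕ) (h6 : Nat.Coprime q 6) (h5 : 5 ≤ q) (u : ℕ) :
    u ∈ PU q 1 3 ↔ Un q u ∧ ((q < 4 * u ∧ 3 * u < q) ∨ (q < 2 * u ∧ 3 * u < 2 * q) ∨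
      3 * q < 4 * u) := by
  obtain ⟨-, h3⟩ := cop6 h6
  rw [PU, mem_filter, mem_filter, mem_Icc, mul_one, Un]
  have key : 1 ≤ u → u < q → (q < u % q + (u * 3) % q ↔
      ((q < 4 * u ∧ 3 * u < q) ∨ (q < 2 * u ∧ 3 * u < 2 * q) ∨ 3 * q < 4 * u)) := by
    intro h1 hu
    rw [Nat.mod_eq_of_lt hu]
    by_cases c1 : 3 * u < q
    · rw [Nat.mod_eq_of_lt (show u * 3 < q by omega)]
      omega
    · by_cases c2 : 3 * u < 2 * q
      · have h4 : (u * 3) % q = 3 * u - q := by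
          rw [Nat.mod_eq_sub_mod (by omega), Nat.mod_eq_of_lt (by omega)]
          omega
        rw [h4]
        omega
      · have h4 : (u * 3) % q = 3 * u - 2 * q := by
          rw [Nat.mod_eq_sub_mod (by omega), Nat.mod_eq_sub_mod (by omega),
            Nat.mod_eq_of_lt (by omega)]
          omega
        rw [h4]
        omega
  constructor
  · rintro ⟨⟨⟨h1, h2⟩, h3⟩, h4⟩
    exact ⟨⟨h1, by omega, h4⟩, (key h1 (by omega)).1 h3⟩
  · rintro ⟨⟨h1, h2, h4⟩, h3⟩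
    exact ⟨⟨⟨h1, by omega⟩, (key h1 h2).2 h3⟩, h4⟩

/-- a unit `m` with `q / c ≤ m ≤ 4 q / (3 c)` -/
theorem smooth (q c : ℕ) (h6 : Nat.Coprime q 6) (hc : 1 ≤ c) (h : 6 * c ≤ q) :
    ∃ m, 1 ≤ m ∧ Nat.Coprime m q ∧ q ≤ c * m ∧ 3 * (c * m) ≤ 4 * q := by
  have h2 := cop2 h6
  have h3 := cop3 h6
  rcases lt_or_ge q (8 * c) with h8 | h8
  · exact ⟨2 ^ 3, by norm_num, h2.pow_left 3, by omega, by omega⟩
  · have hp : 0 < 8 * c := by omega
    have hd : q / (8 * c) ≠ 0 := by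
      rw [Nat.ne_zero_iff_zero_lt, Nat.div_pos_iff]
      exact ⟨hp, h8⟩
    have e1 := Nat.pow_log_le_self 2 hd
    have e2 := Nat.lt_pow_succ_log_self (b := 2) (by norm_num) (q / (8 * c))
    generalize Nat.log 2 (q / (8 * c)) = j at e1 e2
    rw [Nat.le_div_iff_mul_le hp] at e1
    rw [Nat.div_lt_iff_lt_mul hp, pow_succ] at e2
    have hj : 0 < 2 ^ j := by positivity
    have hA1 : 2 ^ j * (8 * c) = 8 * (c * 2 ^ j) := by ring
    have hA2 : 2 ^ j * 2 * (8 * c) = 16 * (c * 2 ^ j) := by ring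
    rw [hA1] at e1
    rw [hA2] at e2
    rcases le_or_gt q (9 * (c * 2 ^ j)) with h9 | h9
    · refine ⟨3 ^ 2 * 2 ^ j, by omega, (h3.pow_left 2).mul_left (h2.pow_left j), ?_, ?_⟩
      · have : c * (3 ^ 2 * 2 ^ j) = 9 * (c * 2 ^ j) := by ring
        omega
      · have : c * (3 ^ 2 * 2 ^ j) = 9 * (c * 2 ^ j) := by ring
        omega
    rcases le_or_gt q (12 * (c * 2 ^ j)) with h12 | h12
    · refine ⟨3 * 2 ^ (j + 2), Nat.succ_le_of_lt (by positivity), h3.mul_left (h2.pow_left _), ?_, ?_⟩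
      · have : c * (3 * 2 ^ (j + 2)) = 12 * (c * 2 ^ j) := by ring
        omega
      · have : c * (3 * 2 ^ (j + 2)) = 12 * (c * 2 ^ j) := by ring
        omega
    · refine ⟨2 ^ (j + 4), Nat.succ_le_of_lt (by positivity), h2.pow_left _, ?_, ?_⟩
      · have : c * 2 ^ (j + 4) = 16 * (c * 2 ^ j) := by ring
        omega
      · have : c * 2 ^ (j + 4) = 16 * (c * 2 ^ j) := by ring
        omega

end Pool.Agent.Helper44.LT
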