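import Pool.Agent.Helper44.LT.N1

/-!
PROJECT LT, PIECE N2: `PU q 1 1` is primitive, and no multiple of `PU q 1 3` is `PU q 1 1`.
-/

set_option autoImplicit false

namespace Pool.Agent.Helper44.LT

open Pool.Agent.Helper34.LT Finset

theorem cmt11 (q : ℕ) (h6 : Nat.Coprime q 6) (h : 115 < q) : CMt q (PU q 1 1) := by
  obtain ⟨h2, -⟩ := cop6 h6
  refine ⟨fun u hu => ((mem11 q u).1 hu).1, fun u hu => ?_⟩
  have hv := hu.sub
  have hu2 := hu.2.1
  rw [mem11, mem11]
  simp only [hu, hv, true_and]
  omega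

theorem cmt13 (q : ℕ) (h6 : Nat.Coprime q 6) (h : 115 < q) : CMt q (PU q 1 3) := by
  obtain ⟨h2, h3⟩ := cop6 h6
  refine ⟨fun u hu => ((mem13 q h6 (by omega) u).1 hu).1, fun u hu => ?_⟩
  have hv := hu.sub
  have hu2 := hu.2.1
  rw [mem13 q h6 (by omega), mem13 q h6 (by omega)]
  simp only [hu, hv, true_and]
  omega

private theorem n2_pow (q : ℕ) (h6 : Nat.Coprime q 6) (i : ℕ) (h : 2 ^ i < q) : Un q (2 ^ i) :=
  ⟨by have : 0 < 2 ^ i := by positivity
      omega, h, (cop2 h6).pow_left i⟩

theorem prm11 (q : ℕ) (h6 : Nat.Coprime q 6) (h115 : 115 < q) : Prm q (PU q 1 1) := by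
  obtain ⟨h2, -⟩ := cop6 h6
  intro h hh hst
  have ind : ∀ i, 2 * 2 ^ i < q → 2 * (2 ^ i * h) < q := by
    intro i
    induction i with
    | zero =>
      intro _
      have h1 := hst 1 (Un.one q (by omega))
      rw [one_mul, Nat.mod_eq_of_lt hh.2.1, mem11, mem11] at h1
      simp only [hh, Un.one q (by omega), true_and] at h1
      rw [pow_zero]
      omega
    | succ i ih =>
      intro hi
      have e1 : 2 ^ (i + 1) = 2 * 2 ^ i := by ring
      have e2 : 2 ^ (i + 1) * h = 2 * (2 ^ i * h) := by ring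
      have h0 := ih (by omega)
      have hu := n2_pow q h6 (i + 1) (by omega)
      have h1 := hst _ hu
      have hm := hu.mul_mod hh (by omega)
      have hlt : 2 ^ (i + 1) * h < q := by omega
      rw [Nat.mod_eq_of_lt hlt] at h1 hm
      rw [mem11, mem11] at h1
      simp only [hu, hm, true_and] at h1
      omega
  have hd : (q - 1) / 2 ≠ 0 := by omega
  have e1 := Nat.pow_log_le_self 2 hd
  have e2 := Nat.lt_pow_succ_log_self (b := 2) (by norm_num) ((q - 1) / 2)
  generalize Nat.log 2 ((q - 1) / 2) = i at e1 e2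
  have e3 : 2 ^ (i + 1) = 2 * 2 ^ i := by ring
  have h1 := ind i (by omega)
  have h3 : 2 ^ i * h < 2 ^ i * 2 := by omega
  have h4 := Nat.lt_of_mul_lt_mul_left h3
  have h5 := hh.1
  omega

theorem ncj (q : ℕ) (h6 : Nat.Coprime q 6) (h115 : 115 < q) :
    NCj q (PU q 1 1) (PU q 1 3) := by
  obtain ⟨h2, h3⟩ := cop6 h6
  intro h hh hst
  have ind : ∀ i, 4 * 2 ^ i < q → 2 * (2 ^ i * h) < q := by
    intro i
    induction i with
    | zero =>
      intro _
      have h1 := hst 1 (Un.one q (by omega))
      rw [one_mul, Nat.mod_eq_of_lt hh.2.1, mem11, mem13 q h6 (by omega)] at h1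
      simp only [hh, Un.one q (by omega), true_and] at h1
      rw [pow_zero]
      omega
    | succ i ih =>
      intro hi
      have e1 : 2 ^ (i + 1) = 2 * 2 ^ i := by ring
      have e2 : 2 ^ (i + 1) * h = 2 * (2 ^ i * h) := by ring
      have h0 := ih (by omega)
      have hu := n2_pow q h6 (i + 1) (by omega)
      have h1 := hst _ hu
      have hm := hu.mul_mod hh (by omega)
      have hlt : 2 ^ (i + 1) * h < q := by omega
      rw [Nat.mod_eq_of_lt hlt] at h1 hm
      rw [mem11, mem13 q h6 (by omega)] at h1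
      simp only [hu, hm, true_and] at h1
      omega
  have hd : (q - 1) / 4 ≠ 0 := by omega
  have e1 := Nat.pow_log_le_self 2 hd
  have e2 := Nat.lt_pow_succ_log_self (b := 2) (by norm_num) ((q - 1) / 4)
  generalize Nat.log 2 ((q - 1) / 4) = i at e1 e2
  have e3 : 2 ^ (i + 1) = 2 * 2 ^ i := by ring
  have h1 := ind i (by omega)
  have h3' : 2 ^ i * h < 2 ^ i * 4 := by omega
  have h4 := Nat.lt_of_mul_lt_mul_left h3'
  have h5 := hh.1
  have hc3 := cop3 h6
  -- the three cases
  have key : ∀ u, Un q u → u * h < q →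
      ((q < 4 * u ∧ 3 * u < q) ∨ (q < 2 * u ∧ 3 * u < 2 * q) ∨ 3 * q < 4 * u ↔
        q < 2 * (u * h)) := by
    intro u hu hlt
    have h1 := hst _ hu
    have hm := hu.mul_mod hh (by omega)
    rw [Nat.mod_eq_of_lt hlt] at h1 hm
    rw [mem11, mem13 q h6 (by omega)] at h1
    simp only [hu, hm, true_and] at h1
    exact h1
  have cop : ∀ u c d, d = q + 1 ∨ d = q + 3 ∨ d + 1 = q ∨ d + 3 = q → c * u = d →
      Nat.Coprime u q := by
    intro u c d hd hc
    have h7 : Nat.Coprime d q := by
      rcases hd with rfl | rfl | hd | hd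
      · exact Nat.coprime_self_add_left.2 (Nat.coprime_one_left q)
      · exact Nat.coprime_self_add_left.2 hc3
      · have : d = q - 1 := by omega
        rw [this, Nat.coprime_self_sub_left (by omega)]
        exact Nat.coprime_one_left q
      · have : d = q - 3 := by omega
        rw [this, Nat.coprime_self_sub_left (by omega)]
        exact hc3
    rw [← hc] at h7
    exact Nat.Coprime.coprime_dvd_left (Dvd.intro_left c rfl) h7
  have hcase : h = 1 ∨ h = 2 ∨ h = 3 := by omega
  have h4m : q % 4 = 1 ∨ q % 4 = 3 := by omega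
  rcases hcase with rfl | rfl | rfl
  · rcases h4m with h4m | h4m
    · have := key ((q + 3) / 4) ⟨by omega, by omega, cop _ 4 (q + 3) (by omega) (by omega)⟩
        (by omega)
      omega
    · have := key ((q + 1) / 4) ⟨by omega, by omega, cop _ 4 (q + 1) (by omega) (by omega)⟩
        (by omega)
      omega
  · have := key ((q - 1) / 2) ⟨by omega, by omega, cop _ 2 (q - 1) (by omega) (by omega)⟩
      (by omega)
    omega
  · rcases h4m with h4m | h4m
    · have := key ((q - 1) / 4) ⟨by omega, by omega, cop _ 4 (q - 1) (by omega) (by omega)⟩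
        (by omega)
      omega
    · have := key ((q - 3) / 4) ⟨by omega, by omega, cop _ 4 (q - 3) (by omega) (by omega)⟩
        (by omega)
      omega

end Pool.Agent.Helper44.LT
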