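import Pool.Agent.Helper44.LT.N1

/-!
PROJECT LT, PIECE N3: `PU q 1 3` is primitive (3-smooth multiples).
-/

set_option autoImplicit false

namespace Pool.Agent.Helper44.LT

open Pool.Agent.Helper34.LT Finset

/-- the complement of `PU q 1 3` (among the units) -/
def inS (q r : ℕ) : Prop :=
  4 * r < q ∨ (q < 3 * r ∧ 2 * r < q) ∨ (2 * q < 3 * r ∧ 4 * r < 3 * q)

theorem not_mem13 (q : ℕ) (h6 : Nat.Coprime q 6) (h5 : 5 ≤ q) (u : ℕ) (hu : Un q u) :
    u ∉ PU q 1 3 ↔ inS q u := by
  obtain ⟨h2, h3⟩ := cop6 h6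
  have hu2 := hu.2.1
  rw [mem13 q h6 h5, inS]
  simp only [hu, true_and]
  omega

/-- a small number which maps the small units to the complement is at most `c / 3` -/
theorem inS_small (q h c : ℕ) (h6 : Nat.Coprime q 6) (h115 : 115 < q) (hc : c = 4 ∨ c = 12)
    (h1 : 1 ≤ h) (h4 : 4 * h < q)
    (hS : ∀ k m r, 1 ≤ k → Nat.Coprime k q → c * k < q → k * h = m * q + r → r < q → inS q r) :
    3 * h ≤ c := by
  obtain ⟨q2, q3⟩ := cop6 h6
  have c2 := cop2 h6
  have c3 := cop3 h6
  unfold inS at hS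
  by_contra hcon
  rw [not_le] at hcon
  rcases le_or_gt q (6 * h) with g6 | g6
  · have a3 := hS 3 0 (3 * h) (by norm_num) c3 (by omega) (by omega) (by omega)
    have a4 := hS 4 0 (4 * h) (by norm_num) (c2.pow_left 2) (by omega) (by omega) (by omega)
    omega
  rcases le_or_gt q (8 * h) with g8 | g8
  · have a2 := hS 2 0 (2 * h) (by norm_num) c2 (by omega) (by omega) (by omega)
    omega
  rcases le_or_gt q (12 * h) with g12 | g12
  · have a3 := hS 3 0 (3 * h) (by norm_num) c3 (by omega) (by omega) (by omega)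
    have a8 := hS 8 0 (8 * h) (by norm_num) (c2.pow_left 3) (by omega) (by omega) (by omega)
    omega
  rcases le_or_gt q (16 * h) with g16 | g16
  · have a4 := hS 4 0 (4 * h) (by norm_num) (c2.pow_left 2) (by omega) (by omega) (by omega)
    omega
  rcases le_or_gt q (18 * h) with g18 | g18
  · have a9 := hS 9 0 (9 * h) (by norm_num) (c3.pow_left 2) (by omega) (by omega) (by omega)
    omega
  rcases le_or_gt q (24 * h) with g24 | g24
  · have a6 := hS 6 0 (6 * h) (by norm_num) (c2.mul_left c3) (by omega) (by omega) (by omega)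
    omega
  obtain ⟨m, hm1, hm2, hm3, hm4⟩ := smooth q (4 * h) h6 (by omega) (by omega)
  have e1 : 4 * h * m = 4 * (m * h) := by ring
  rw [e1] at hm3 hm4
  have e2 : m * (3 * h) = 3 * (m * h) := by ring
  have e3 : m * c ≤ m * (3 * h) := Nat.mul_le_mul_left m hcon.le
  have e4 : m * c < m * (3 * h) := Nat.mul_lt_mul_of_pos_left hcon hm1
  have am := hS m 0 (m * h) hm1 hm2 (by rw [mul_comm]; omega) (by omega) (by omega)
  omega

theorem prm13 (q : ℕ) (h6 : Nat.Coprime q 6) (h115 : 115 < q) : Prm q (PU q 1 3) := by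
  obtain ⟨q2, q3⟩ := cop6 h6
  have c2 := cop2 h6
  have c3 := cop3 h6
  intro h hh hst
  have hh2 := hh.2.1
  have hmod : ∀ k m r : ℕ, k * h = m * q + r → r < q → (k * h) % q = r := by
    intro k m r hk hr
    rw [hk, Nat.mul_add_mod', Nat.mod_eq_of_lt hr]
  -- both directions of the stability of the complement
  have hS : ∀ k m r, Un q k → k * h = m * q + r → r < q → (inS q k ↔ inS q r) := by
    intro k m r hk hkr hr
    have hm := hmod k m r hkr hr
    have hu := hk.mul_mod hh (by omega)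
    rw [hm] at hu
    have h1 := hst k hk
    rw [hm] at h1
    rw [← not_mem13 q h6 (by omega) k hk, ← not_mem13 q h6 (by omega) r hu, h1]
  have hS4 : ∀ k m r, 1 ≤ k → Nat.Coprime k q → 4 * k < q → k * h = m * q + r → r < q →
      inS q r := by
    intro k m r hk1 hk2 hk3 hkr hr
    exact (hS k m r ⟨hk1, by omega, hk2⟩ hkr hr).1 (Or.inl hk3)
  have hinS : inS q h := hS4 1 0 h le_rfl (Nat.coprime_one_left q) (by omega) (by omega) hh2
  -- the case `3 h = c q + h₁`
  have hfin : ∀ c h₁ : ℕ, c = 1 ∨ c = 2 → 3 * h = c * q + h₁ → 1 ≤ h₁ → 4 * h₁ < q →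
      False := by
    intro c h₁ hc12 hc hh1 hh4
    have hk1 : ∀ k : ℕ, 3 * k * h = k * c * q + k * h₁ := by
      intro k
      calc 3 * k * h = k * (3 * h) := by ring
        _ = k * c * q + k * h₁ := by rw [hc]; ring
    have h5 := inS_small q h₁ 12 h6 h115 (Or.inr rfl) hh1 hh4 (fun k m r hk1' hk2 hk3 hkr hr => by
      refine hS4 (3 * k) (k * c + m) r (by omega) (c3.mul_left hk2) (by omega) ?_ hr
      rw [hk1, hkr]
      ring)
    have hne : h₁ ≠ 3 := by
      rintro rfl
      rcases hc12 with rfl | rfl <;> omega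
    have hcase : h₁ = 1 ∨ h₁ = 2 ∨ h₁ = 4 := by omega
    rcases hcase with rfl | rfl | rfl
    · obtain ⟨m, hm1, hm2, hm3, hm4⟩ := smooth q 6 h6 (by norm_num) (by omega)
      have := (hS (3 * m) (m * c) (m * 1) ⟨by omega, by omega, c3.mul_left hm2⟩ (hk1 m)
        (by omega)).2 (Or.inl (by omega))
      unfold inS at this
      omega
    · obtain ⟨m, hm1, hm2, hm3, hm4⟩ := smooth q 12 h6 (by norm_num) (by omega)
      have := (hS (3 * m) (m * c) (m * 2) ⟨by omega, by omega, c3.mul_left hm2⟩ (hk1 m)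
        (by omega)).2 (Or.inl (by omega))
      unfold inS at this
      omega
    · obtain ⟨m, hm1, hm2, hm3, hm4⟩ := smooth q 16 h6 (by norm_num) (by omega)
      have := (hS (3 * m) (m * c) (m * 4) ⟨by omega, by omega, c3.mul_left hm2⟩ (hk1 m)
        (by omega)).1 (Or.inl (by omega))
      unfold inS at this
      omega
  unfold inS at hinS
  rcases hinS with g | ⟨g1, g2⟩ | ⟨g1, g2⟩
  · have h5 := inS_small q h 4 h6 h115 (Or.inl rfl) hh.1 g hS4
    have := hh.1
    omega
  · exfalso
    have a2 := hS4 2 0 (2 * h) (by norm_num) c2 (by omega) (by omega) (by omega)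
    unfold inS at a2
    exact hfin 1 (3 * h - q) (Or.inl rfl) (by omega) (by omega) (by omega)
  · exfalso
    have a4 := hS4 4 2 (4 * h - 2 * q) (by norm_num) (c2.pow_left 2) (by omega) (by omega)
      (by omega)
    unfold inS at a4
    exact hfin 2 (3 * h - 2 * q) (Or.inr rfl) (by omega) (by omega) (by omega)

end Pool.Agent.Helper44.LT
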