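import Pool.Agent.Helper44.LT.N4

/-!
PROJECT LT, PIECE N5: the values at the places of `s` can be prescribed by a real polynomial.

PROOF. Let `y u = x u` for `u ∈ s`, `y u = conj (x (q - u))` for `u` a unit, `u ∉ s` (then `q - u ∈ s`). The Lagrange
interpolation polynomial `L` over `ℂ` of degree `< q.totient` with `L(ζ ^ u) = y u` for `u ∈ the set of units`
(`Lagrange.interpolate`, nodes `ζ ^ u` distinct by `zt_inj`). `L* = L.map (starRingEnd ℂ)` has
`L*(ζ ^ u) = conj (L(ζ ^ (q - u))) = conj (y (q - u)) = y u`, so `L* = L` (`Lagrange` uniqueness: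
`Polynomial.eq_of_degrees_lt_of_eval_finset_eq`), the coefficients are real: `L = P.map (algebraMap ℝ ℂ)` with
`P = ∑ n ∈ range q, monomial n (L.coeff n).re`. Other way: the real-linear map `Polynomial.degreeLT ℝ q.totient → (s → ℂ)` is injective
(`ker` in N4 and degrees), and both sides have real dimension `q.totient` (`2 * s.card = q.totient`), so it is surjective.
-/

set_option autoImplicit false

namespace Pool.Agent.Helper44.LT

open Pool.Agent.Helper34.LT Polynomial

private theorem N5_prim {q : ℕ} (hq : 3 ≤ q) : IsPrimitiveRoot (zt q) q :=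
  Complex.isPrimitiveRoot_exp q (by omega)

private theorem N5_conj {q : ℕ} (hq : 3 ≤ q) {u : ℕ} (hu : u ≤ q) :
    (starRingEnd ℂ) (zt q ^ (q - u)) = zt q ^ u := by
  have h0 : q ≠ 0 := by omega
  have h1 : ‖zt q ^ (q - u)‖ = 1 := by
    rw [norm_pow, (N5_prim hq).norm'_eq_one h0, one_pow]
  have h2 : zt q ^ (q - u) * zt q ^ u = 1 := by
    rw [← pow_add, Nat.sub_add_cancel hu, (N5_prim hq).pow_eq_one]
  rw [← Complex.inv_eq_conj h1]
  exact inv_eq_of_mul_eq_one_right h2

theorem surj (q : ℕ) (hq : 3 ≤ q) (s : Finset ℕ) (hs : CMt q s) (x : ℕ → ℂ) :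
    ∃ P : ℝ[X], ∀ u ∈ s, er q u P = x u := by
  classical
  let y : ℕ → ℂ := fun u => if u ∈ s then x u else
    if q - u ∈ s then (starRingEnd ℂ) (x (q - u)) else 0
  have hy : ∀ u, 1 ≤ u → u < q → (starRingEnd ℂ) (y (q - u)) = y u := by
    intro u h1 h2
    have h3 : q - (q - u) = u := by omega
    by_cases hu : u ∈ s
    · have h4 : q - u ∉ s := (hs.sub u (hs.rng u hu)).1 hu
      simp only [y, if_neg h4, h3, if_pos hu, Complex.conj_conj]
    · by_cases hu2 : q - u ∈ s
      · simp only [y, if_neg hu, if_pos hu2]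
      · simp only [y, if_neg hu, if_neg hu2, h3, map_zero]
  have hinj : Set.InjOn (fun u : ℕ => zt q ^ u) (Finset.Icc 1 (q - 1) : Finset ℕ) := by
    intro u hu v hv h
    rw [Finset.mem_coe, Finset.mem_Icc] at hu hv
    exact (N5_prim hq).pow_inj (by omega) (by omega) h
  have hev : ∀ u ∈ Finset.Icc 1 (q - 1),
      (Lagrange.interpolate (Finset.Icc 1 (q - 1)) (fun u : ℕ => zt q ^ u) y).eval (zt q ^ u) =
        y u := fun u hu => Lagrange.eval_interpolate_at_node y hinj hu
  have hdeg := Lagrange.degree_interpolate_lt y hinj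
  have hstar : (Lagrange.interpolate (Finset.Icc 1 (q - 1)) (fun u : ℕ => zt q ^ u) y).map
      (starRingEnd ℂ) =
        Lagrange.interpolate (Finset.Icc 1 (q - 1)) (fun u : ℕ => zt q ^ u) y := by
    refine Polynomial.eq_of_degrees_lt_of_eval_index_eq _ hinj ?_ hdeg fun u hu => ?_
    · rw [Polynomial.degree_map]
      exact hdeg
    · rw [hev u hu]
      rw [Finset.mem_Icc] at hu
      have h1 : q - u ∈ Finset.Icc 1 (q - 1) := by
        rw [Finset.mem_Icc]
        omega
      change ((Lagrange.interpolate (Finset.Icc 1 (q - 1)) (fun u : ℕ => zt q ^ u) y).map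
        (starRingEnd ℂ)).eval (zt q ^ u) = y u
      rw [← N5_conj hq (u := u) (by omega), Polynomial.eval_map, Polynomial.eval₂_at_apply,
        hev _ h1]
      exact hy u hu.1 (by omega)
  have hlift : Lagrange.interpolate (Finset.Icc 1 (q - 1)) (fun u : ℕ => zt q ^ u) y ∈
      Polynomial.lifts (algebraMap ℝ ℂ) := by
    rw [Polynomial.lifts_iff_coeff_lifts]
    intro n
    have h1 := congrArg (fun p : ℂ[X] => p.coeff n) hstar
    simp only [Polynomial.coeff_map] at h1
    obtain ⟨r, hr⟩ := Complex.conj_eq_iff_real.1 h1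
    exact ⟨r, hr.symm⟩
  obtain ⟨P, hP⟩ := (Polynomial.mem_lifts _).1 hlift
  refine ⟨P, fun u hu => ?_⟩
  have h1 := hs.rng u hu
  have h2 : u ∈ Finset.Icc 1 (q - 1) := by
    rw [Finset.mem_Icc]
    have h3 := h1.1
    have h4 := h1.2.1
    omega
  have h3 := hev u h2
  rw [← hP, Polynomial.eval_map_algebraMap] at h3
  have h4 : y u = x u := if_pos hu
  rw [← h4, ← h3]
  rfl

end Pool.Agent.Helper44.LT
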