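import Pool.Agent.Helper44.LT.N0

/-!
PROJECT LT, PIECE N1 (prime levels): the CM types `Phi q a b`, cardinalities.

PROOF. `mem_Phi_sub`: `A = (u a) % q`, `B = (u b) % q` are in `[1, q - 1]` and `A + B ≠ q` (`q` prime, `q ∤ u (a + b)`);
`((q - u) a) % q = q - A` etc., so `u ∈ Phi` iff `q < A + B` iff not `q < 2 q - A - B`. `card_Phi`: `u ↦ q - u` is a
bijection of `Phi` onto its complement in `Icc 1 (q - 1)`, `q` is odd. `mem11`: `(u * 1) % q = u`. `mem13`: cases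
`3 u < q`, `q < 3 u < 2 q`, `2 q < 3 u` (`3 u ≠ q, 2 q` by primality), `(3 u) % q = 3 u`, `3 u - q`, `3 u - 2 q`.
`card_Psi`: `Psi = Phi q 1 1 ∪ {u | q < 4 u ∧ 3 u < q}` (disjoint), the second set is `Ioc (q / 4) (q / 3)` (`q` prime
to `3` and `4`). `ineq_q`: `omega` after `q % 3 ≠ 0` and `q % 2 ≠ 0` (primality).
-/

set_option autoImplicit false

namespace Pool.Agent.Helper44.LT.P

open Pool.Agent.Helper34.LT Finset

theorem un_prime {q u : ℕ} (hq : q.Prime) (h1 : 1 ≤ u) (h2 : u < q) : Un q u :=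
  ⟨h1, h2, ((Nat.Prime.coprime_iff_not_dvd hq).2 fun h =>
    absurd (Nat.le_of_dvd h1 h) (by omega)).symm⟩

private theorem n1_mem (q a b u : ℕ) (hq : q.Prime) :
    u ∈ Phi q a b ↔ (1 ≤ u ∧ u < q) ∧ q < (u * a) % q + (u * b) % q := by
  rw [Phi, mem_filter, mem_Icc]
  have h0 := hq.pos
  constructor
  · rintro ⟨⟨h1, h2⟩, h3⟩
    exact ⟨⟨h1, by omega⟩, h3⟩
  · rintro ⟨⟨h1, h2⟩, h3⟩
    exact ⟨⟨h1, by omega⟩, h3⟩

private theorem n1_sub (q a u : ℕ) (hq : q.Prime) (ha : ¬ q ∣ a) (h1 : 1 ≤ u) (h2 : u < q) :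
    0 < (u * a) % q ∧ (u * a) % q < q ∧ ((q - u) * a) % q + (u * a) % q = q := by
  have h0 := hq.pos
  have hA : 0 < (u * a) % q := by
    rw [Nat.pos_iff_ne_zero]
    intro h
    rcases (Nat.Prime.dvd_mul hq).1 (Nat.dvd_of_mod_eq_zero h) with h3 | h3
    · exact Nat.not_dvd_of_pos_of_lt h1 h2 h3
    · exact ha h3
  have hA2 : (u * a) % q < q := Nat.mod_lt _ h0
  have hX2 : ((q - u) * a) % q < q := Nat.mod_lt _ h0
  refine ⟨hA, hA2, ?_⟩
  have h3 : (((q - u) * a) % q + (u * a) % q) % q = 0 := by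
    rw [← Nat.add_mod, ← add_mul, Nat.sub_add_cancel h2.le, Nat.mul_mod_right]
  obtain ⟨c, hc⟩ := Nat.dvd_of_mod_eq_zero h3
  have hc1 : c < 2 := by
    by_contra h
    have : q * 2 ≤ q * c := Nat.mul_le_mul_left q (by omega)
    omega
  have hc0 : c ≠ 0 := by
    rintro rfl
    omega
  have : c = 1 := by omega
  rw [this, mul_one] at hc
  exact hc

theorem mem_Phi_sub (q a b : ℕ) (hq : q.Prime) (ha : ¬ q ∣ a) (hb : ¬ q ∣ b) (hab : ¬ q ∣ a + b)
    (u : ℕ) (h1 : 1 ≤ u) (h2 : u < q) : u ∈ Phi q a b ↔ q - u ∉ Phi q a b := by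
  rw [n1_mem q a b u hq, n1_mem q a b (q - u) hq]
  obtain ⟨a1, a2, a3⟩ := n1_sub q a u hq ha h1 h2
  obtain ⟨b1, b2, b3⟩ := n1_sub q b u hq hb h1 h2
  have h3 : (u * a) % q + (u * b) % q ≠ q := by
    intro h
    have h4 : (u * (a + b)) % q = 0 := by
      rw [mul_add, Nat.add_mod, h, Nat.mod_self]
    rcases (Nat.Prime.dvd_mul hq).1 (Nat.dvd_of_mod_eq_zero h4) with h5 | h5
    · exact Nat.not_dvd_of_pos_of_lt h1 h2 h5
    · exact hab h5
  have h4 : (1 ≤ q - u ∧ q - u < q) := by omega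
  have h5 : (1 ≤ u ∧ u < q) := ⟨h1, h2⟩
  simp only [h4, h5, true_and, and_self]
  omega

theorem card_Phi (q a b : ℕ) (hq : q.Prime) (hq3 : 3 ≤ q) (ha : ¬ q ∣ a) (hb : ¬ q ∣ b)
    (hab : ¬ q ∣ a + b) : (Phi q a b).card = (q - 1) / 2 := by
  have h1 : (Icc 1 (q - 1)).filter (fun u => u ∈ Phi q a b) = Phi q a b := by
    ext u
    rw [mem_filter, mem_Icc]
    constructor
    · exact fun h => h.2
    · intro h
      have := ((n1_mem q a b u hq).1 h).1
      exact ⟨⟨this.1, by omega⟩, h⟩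
  have h2 : ((Icc 1 (q - 1)).filter (fun u => u ∉ Phi q a b)).card = (Phi q a b).card := by
    refine Finset.card_bij' (fun u _ => q - u) (fun u _ => q - u) ?_ ?_ ?_ ?_
    · intro u hu
      rw [mem_filter, mem_Icc] at hu
      by_contra h
      exact hu.2 ((mem_Phi_sub q a b hq ha hb hab u hu.1.1 (by omega)).2 h)
    · intro u hu
      have h := ((n1_mem q a b u hq).1 hu).1
      rw [mem_filter, mem_Icc]
      exact ⟨by omega, (mem_Phi_sub q a b hq ha hb hab u h.1 h.2).1 hu⟩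
    · intro u hu
      rw [mem_filter, mem_Icc] at hu
      show q - (q - u) = u
      omega
    · intro u hu
      have h := ((n1_mem q a b u hq).1 hu).1
      show q - (q - u) = u
      omega
  have h3 := Finset.card_filter_add_card_filter_not (s := Icc 1 (q - 1))
    (fun u => u ∈ Phi q a b)
  rw [h1, h2, Nat.card_Icc] at h3
  omega

theorem mem11 (q : ℕ) (u : ℕ) : u ∈ Phi q 1 1 ↔ u < q ∧ q < 2 * u := by
  rw [Phi, mem_filter, mem_Icc, mul_one]
  constructor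
  · rintro ⟨⟨h1, h2⟩, h3⟩
    have h4 : u < q := by omega
    rw [Nat.mod_eq_of_lt h4] at h3
    exact ⟨h4, by omega⟩
  · rintro ⟨h2, h3⟩
    rw [Nat.mod_eq_of_lt h2]
    exact ⟨⟨by omega, by omega⟩, by omega⟩

private theorem n1_mod3 (q : ℕ) (hq : q.Prime) (h5 : 5 ≤ q) : q % 3 ≠ 0 ∧ q % 2 ≠ 0 := by
  constructor
  · intro h
    have h1 := (Nat.prime_dvd_prime_iff_eq Nat.prime_three hq).1 (Nat.dvd_of_mod_eq_zero h)
    omega
  · intro h
    have h1 := (Nat.prime_dvd_prime_iff_eq Nat.prime_two hq).1 (Nat.dvd_of_mod_eq_zero h)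
    omega

theorem mem13 (q : ℕ) (hq : q.Prime) (h5 : 5 ≤ q) (u : ℕ) :
    u ∈ Phi q 1 3 ↔ (q < 4 * u ∧ 3 * u < q) ∨ (q < 2 * u ∧ 3 * u < 2 * q) ∨
      (3 * q < 4 * u ∧ u < q) := by
  rw [n1_mem q 1 3 u hq, mul_one]
  obtain ⟨h3, _⟩ := n1_mod3 q hq h5
  by_cases hu : u < q
  · rw [Nat.mod_eq_of_lt hu]
    by_cases c1 : 3 * u < q
    · rw [Nat.mod_eq_of_lt (show u * 3 < q by omega)]
      omega
    · by_cases c2 : 3 * u < 2 * q
      · have h4 : (u * 3) % q = 3 * u - q := by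
          rw [Nat.mod_eq_sub_mod (by omega), Nat.mod_eq_of_lt (by omega)]
          omega
        rw [h4]
        omega
      · have h4 : (u * 3) % q = 3 * u - 2 * q := by
          rw [Nat.mod_eq_sub_mod (by omega), Nat.mod_eq_sub_mod (by omega),
            Nat.mod_eq_of_lt (by omega)]
          omega
        rw [h4]
        omega
  · constructor
    · rintro ⟨⟨_, h⟩, _⟩
      exact absurd h hu
    · intro h
      omega

theorem card_Psi (q : ℕ) (hq : q.Prime) (h : 17 ≤ q) :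
    (Psi q).card = (q - 1) / 2 + (q / 3 - q / 4) := by
  obtain ⟨h3, h2⟩ := n1_mod3 q hq (by omega)
  have h1 : Psi q = Phi q 1 1 ∪ Ioc (q / 4) (q / 3) := by
    ext u
    rw [Psi, mem_union, mem_union, mem11 q, mem13 q hq (by omega), mem_Ioc]
    omega
  have hd : Disjoint (Phi q 1 1) (Ioc (q / 4) (q / 3)) := by
    rw [Finset.disjoint_left]
    intro u hu hv
    rw [mem11 q] at hu
    rw [mem_Ioc] at hv
    omega
  have h11 : ¬ q ∣ 1 := Nat.not_dvd_of_pos_of_lt (by omega) (by omega)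
  have h12 : ¬ q ∣ 1 + 1 := Nat.not_dvd_of_pos_of_lt (by omega) (by omega)
  rw [h1, Finset.card_union_of_disjoint hd, card_Phi q 1 1 hq (by omega) h11 h11 h12,
    Nat.card_Ioc]

theorem ineq_q (q : ℕ) (hq : q.Prime) (h : 83 ≤ q) :
    5 * (q / 3 - q / 4) + 4 < (q - 1) / 2 := by
  obtain ⟨h3, h2⟩ := n1_mod3 q hq (by omega)
  omega

end Pool.Agent.Helper44.LT.P
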