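import Pool.Agent.Helper44.LT.P1

/-!
PROJECT LT, PIECE N2 (prime levels): `Phi q 1 1` is primitive, and no multiple of `Phi q 1 3` is `Phi q 1 1`.

PROOF. `cmt`: `mem_Phi_sub`. `prm11`: complement `S = (0, q/2)`: `h ∈ S` (`u = 1`: `1 ∉ Phi`, so `h ∉ Phi`).
If `2 ≤ h` take the smallest `k` with `q < 2 k h` (`Nat.find` or `k = q / (2 h) + 1`): `2 (k - 1) h ≤ q`, in fact `< q`
(`q` odd), so `k h < q / 2 + h < q`, `(k h) % q = k h ∈ Phi`; `k ≤ q / (2 h) + 1 < q / 2`, so `k ∉ Phi`: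
contradiction. `ncj`: let `S' = (0, q/4) ∪ (q/3, q/2) ∪ (2q/3, 3q/4)` be the complement of `Phi q 1 3`; `k ∈ S'` iff
`(k h) % q < q / 2`. `k = 1`: `h < q / 2`. If `3 ≤ h`: the smallest `k` with `q < 2 k h` has `k h < q`, and
`k ≤ q / 6 + 1 < q / 4`, so `k ∈ S'`: contradiction. `h = 1`: `k = q / 4 + 1` lies in `(q/4, q/3)`: not in `S'`, but
`k < q / 2`. `h = 2`: `k = q / 3 + 1` lies in `(q/3, q/2)`: in `S'`, but `(2 k) % q = 2 k > q / 2`.
(Use `mem11`, `mem13`, then `omega` / `nlinarith`; `(k * h) % q = k * h` by `Nat.mod_eq_of_lt`.)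
-/

set_option autoImplicit false

namespace Pool.Agent.Helper44.LT.P

open Pool.Agent.Helper34.LT Finset

private theorem n2_rng (q a b : ℕ) (h5 : 5 ≤ q) : ∀ u ∈ Phi q a b, 1 ≤ u ∧ u < q := by
  intro u hu
  rw [Phi, Finset.mem_filter, Finset.mem_Icc] at hu
  omega

private theorem n2_ndvd {q n : ℕ} (hn : 1 ≤ n) (h : n < q) : ¬ q ∣ n :=
  fun hd => absurd (Nat.le_of_dvd hn hd) (not_le.2 h)

theorem cmt11 (q : ℕ) (hq : q.Prime) (h : 5 ≤ q) : CMt q (Phi q 1 1) :=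
  ⟨fun u hu => un_prime hq (n2_rng q 1 1 h u hu).1 (n2_rng q 1 1 h u hu).2,
    fun u hu => mem_Phi_sub q 1 1 hq (n2_ndvd le_rfl (by omega))
    (n2_ndvd le_rfl (by omega)) (n2_ndvd (by omega) (by omega)) u hu.1 hu.2.1⟩

theorem cmt13 (q : ℕ) (hq : q.Prime) (h : 5 ≤ q) : CMt q (Phi q 1 3) :=
  ⟨fun u hu => un_prime hq (n2_rng q 1 3 h u hu).1 (n2_rng q 1 3 h u hu).2,
    fun u hu => mem_Phi_sub q 1 3 hq (n2_ndvd le_rfl (by omega))
    (n2_ndvd (by omega) (by omega)) (n2_ndvd (by omega) (by omega)) u hu.1 hu.2.1⟩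

/-- the first multiple of `h` beyond `q / 2` -/
private theorem n2_mul {q h : ℕ} (c : ℕ) (hc : c ≤ h) (h1 : 1 ≤ c) (h2 : 2 * h < q) :
    ∃ k, 1 ≤ k ∧ 2 * c * k ≤ q + 2 * c ∧ k * h < q ∧ q < 2 * (k * h) := by
  have h0 : 0 < 2 * h := by omega
  have h3 : 2 * h * (q / (2 * h)) ≤ q := Nat.mul_div_le q (2 * h)
  have h4 : q < 2 * h * (q / (2 * h) + 1) := Nat.lt_mul_div_succ q h0
  have h5 : 2 * c * (q / (2 * h)) ≤ 2 * h * (q / (2 * h)) :=
    Nat.mul_le_mul_right _ (Nat.mul_le_mul_left 2 hc)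
  generalize q / (2 * h) = m at h3 h4 h5
  have h6 : 2 * ((m + 1) * h) = 2 * h * m + 2 * h := by ring
  have h7 : 2 * h * (m + 1) = 2 * h * m + 2 * h := by ring
  refine ⟨m + 1, by omega, ?_, by omega, by omega⟩
  have h8 : 2 * c * (m + 1) = 2 * c * m + 2 * c := by ring
  omega

private theorem n2_odd {q : ℕ} (hq : q.Prime) (h41 : 41 ≤ q) : q % 2 = 1 :=
  Nat.odd_iff.1 (hq.odd_of_ne_two (by omega))

theorem prm11 (q : ℕ) (hq : q.Prime) (h41 : 41 ≤ q) : Prm q (Phi q 1 1) := by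
  intro h hh H'
  obtain ⟨h1, h2, -⟩ := hh
  have H := fun u (hu1 : 1 ≤ u) (hu2 : u < q) => H' u (un_prime hq hu1 hu2)
  have hodd := n2_odd hq h41
  by_contra hne
  have e1 := H 1 le_rfl (by omega)
  rw [mem11, mem11, one_mul, Nat.mod_eq_of_lt h2] at e1
  have h3 : 2 * h < q := by
    by_contra hcon
    have : 1 < q ∧ q < 2 * 1 := e1.2 ⟨h2, by omega⟩
    omega
  obtain ⟨k, k1, k2, k3, k4⟩ := n2_mul 2 (show 2 ≤ h by omega) (by omega) h3
  have e2 := H k k1 (by omega)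
  rw [mem11, mem11, Nat.mod_eq_of_lt k3] at e2
  have := e2.2 ⟨k3, k4⟩
  omega

theorem ncj (q : ℕ) (hq : q.Prime) (h41 : 41 ≤ q) : NCj q (Phi q 1 1) (Phi q 1 3) := by
  intro h hh H'
  obtain ⟨h1, h2, -⟩ := hh
  have H := fun u (hu1 : 1 ≤ u) (hu2 : u < q) => H' u (un_prime hq hu1 hu2)
  have hodd := n2_odd hq h41
  have e1 := H 1 le_rfl (by omega)
  rw [mem11, mem13 q hq (by omega), one_mul, Nat.mod_eq_of_lt h2] at e1
  have h3 : 2 * h < q := by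
    by_contra hcon
    have := e1.2 ⟨h2, by omega⟩
    omega
  by_cases h4 : 3 ≤ h
  · obtain ⟨k, k1, k2, k3, k4⟩ := n2_mul 3 h4 (by omega) h3
    have e2 := H k k1 (by omega)
    rw [mem11, mem13 q hq (by omega), Nat.mod_eq_of_lt k3] at e2
    have := e2.2 ⟨k3, k4⟩
    omega
  by_cases h5 : h = 1
  · have e2 := H (q / 4 + 1) (by omega) (by omega)
    rw [mem11, mem13 q hq (by omega), h5, mul_one, Nat.mod_eq_of_lt (by omega)] at e2
    have := e2.1 (Or.inl ⟨by omega, by omega⟩)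
    omega
  · have h6 : h = 2 := by omega
    have h7 : (q / 3 + 1) * 2 < q := by omega
    have e2 := H (q / 3 + 1) (by omega) (by omega)
    rw [mem11, mem13 q hq (by omega), h6, Nat.mod_eq_of_lt h7] at e2
    have := e2.2 ⟨h7, by omega⟩
    omega

end Pool.Agent.Helper44.LT.P
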